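import Pool.Agent.Zk2.WP.Crit

/-! # Weil's criterion for the Riemann hypothesis and smooth test functions -/

set_option autoImplicit false
set_option maxHeartbeats 2000000

open Complex Filter Topology Set MeasureTheory
open scoped ComplexConjugate

namespace Pool.Agent.Zk2.WP

open Pool.Agent.Y23 (TT Fa N2 int_TT_sq differentiable_TT)
open Pool.Agent.Y23.G (Hd QQ GG mu Zt zd zc Lg Lg_cont Lg_lin one_le_Lg)
open Pool.Agent.Zk4.W

/-- the value of the form in the form domain -/
lemma form_QQ {a : ℝ} (ha : 0 < a) {f : ℝ → ℂ} (hf : Hd a f) :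
    Summable (wterm f) ∧ ∑' ρ, wterm f ρ = (QQ (D := zd (L := zL)) f : ℂ) := by
  have hdom : Pool.Agent.Y23.G.Dom (D := zd (L := zL)) f :=
    Pool.Agent.Y23.G.Hd.dom (DZ := zd (L := zL)) (EC := zc (L := zL)) ha hf
  have hsum := Pool.Agent.Y23.G.summable_GG (DZ := zd (L := zL)) hdom hdom
  have hQB := Pool.Agent.Y23.G.QB_self (DZ := zd (L := zL)) hdom
  have hw : wterm f = (fun ρ : Zt (D := zd (L := zL)) =>
      (mu (D := zd (L := zL)) (ρ : ℂ) : ℂ) * GG f f ((ρ : ℂ) - 1 / 2)) ∘ eqZ := by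
    funext ρ
    have h := wterm_eq f 0 ρ
    simp only [add_zero] at h
    exact h
  refine ⟨?_, ?_⟩
  · rw [hw]
    exact eqZ.summable_iff.2 hsum
  · rw [hw, ← hQB]
    exact eqZ.tsum_eq (fun ρ : Zt (D := zd (L := zL)) =>
      (mu (D := zd (L := zL)) (ρ : ℂ) : ℂ) * GG f f ((ρ : ℂ) - 1 / 2))

/-- under the Riemann hypothesis the form is nonnegative -/
lemma nonneg_of_rh (h : RiemannHypothesis) (f : ℝ → ℂ) : 0 ≤ (∑' ρ, wterm f ρ).re := by
  have h1 : ∀ ρ : Zs, wterm f ρ = (((analyticOrderNatAt riemannZeta (ρ : ℂ) : ℝ) * ‖Ml f ((ρ : ℂ) - 1 / 2)‖ ^ 2 : ℝ) : ℂ) := by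
    intro ρ
    have hρ := ρ.2
    have hre : (ρ : ℂ).re = 1 / 2 := by
      refine h ρ hρ.1 ?_ ?_
      · rintro ⟨n, hn⟩
        have h2 := hρ.2.1
        rw [hn] at h2
        simp at h2
        have : (0 : ℝ) ≤ n := Nat.cast_nonneg n
        linarith
      · intro h1
        have h2 := hρ.2.2
        rw [h1] at h2
        simp at h2
    have e1 : (1 / 2 - conj (ρ : ℂ)) = (ρ : ℂ) - 1 / 2 := by
      apply Complex.ext
      · simp [hre]
      · simp
    unfold wterm
    rw [e1, Complex.mul_conj, Complex.normSq_eq_norm_sq]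
    push_cast
    rfl
  by_cases hs : Summable (wterm f)
  · rw [Complex.re_tsum hs]
    refine tsum_nonneg fun ρ => ?_
    rw [h1, Complex.ofReal_re]
    positivity
  · rw [tsum_eq_zero_of_not_summable hs, Complex.zero_re]

/-- Weil's criterion -/
theorem rh_iff : RiemannHypothesis ↔ ∀ (a : ℝ) (f : ℝ → ℂ), 0 < a → Hd a f → 0 ≤ (∑' ρ, wterm f ρ).re := by
  refine ⟨fun h a f _ _ => nonneg_of_rh h f, fun h => ?_⟩
  refine Pool.Agent.TH803.LG.RH_of fun s hs hs1 h0 => ?_
  have hlt : s.re < 1 := by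
    by_contra hcon
    exact riemannZeta_ne_zero_of_one_le_re (not_lt.1 hcon) h0
  obtain ⟨a, f, ha, hf, hneg⟩ := exists_neg (ρ₀ := s) ⟨h0, by linarith, hlt⟩ hs
  have h1 := h a f ha hf
  rw [(form_QQ ha hf).2, Complex.ofReal_re] at h1
  linarith

/-- smooth functions are in the form domain -/
theorem smooth_Hd {b : ℝ} {f : ℝ → ℂ} (hf : ContDiff ℝ 1 f) (hs : ∀ x, b < |x| → f x = 0) : Hd b f := by
  have hcs : HasCompactSupport f := by
    refine HasCompactSupport.intro (K := Icc (-b) b) isCompact_Icc fun x hx => hs x ?_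
    by_contra hcon
    rw [not_lt, abs_le] at hcon
    exact hx hcon
  have hFa : Fa b f := ⟨hf.continuous.memLp_of_hasCompactSupport hcs, hs⟩
  have hdc : Continuous (deriv f) := hf.continuous_deriv le_rfl
  have hdcs : HasCompactSupport (deriv f) := hcs.deriv
  have hFd : Fa (b + 1) (deriv f) := by
    refine ⟨hdc.memLp_of_hasCompactSupport hdcs, fun x hx => ?_⟩
    have h1 : f =ᶠ[𝓝 x] fun _ => 0 := by
      have h2 : ∀ᶠ y in 𝓝 x, b < |y| := continuous_abs.continuousAt.eventually_const_lt (by linarith)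
      filter_upwards [h2] with y hy
      exact hs y hy
    rw [h1.deriv_eq]
    simp
  have hTd : ∀ w : ℂ, TT (deriv f) w = -(w * TT f w) := by
    intro w
    have h1 : ∀ x : ℝ, HasDerivAt (fun x : ℝ => f x * cexp (w * x)) (deriv f x * cexp (w * x) + f x * (cexp (w * x) * w)) x := by
      intro x
      have h2 : HasDerivAt f (deriv f x) x := ((hf.differentiable (by norm_num)) x).hasDerivAt
      have h3 : HasDerivAt (fun x : ℝ => cexp (w * x)) (cexp (w * x) * w) x := by
        have h4 : HasDerivAt (fun x : ℝ => w * (x : ℂ)) w x := by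
          simpa using (Complex.ofRealCLM.hasDerivAt (x := x)).const_mul w
        exact h4.cexp
      exact h2.mul h3
    have i1 : Integrable (fun x : ℝ => deriv f x * cexp (w * x)) := hFd.integrable_mul (by fun_prop)
    have i2 : Integrable (fun x : ℝ => f x * (cexp (w * x) * w)) := hFa.integrable_mul (by fun_prop)
    have i3 : Integrable (fun x : ℝ => f x * cexp (w * x)) := hFa.integrable_mul (by fun_prop)
    have h2 := integral_eq_zero_of_hasDerivAt_of_integrable h1 (i1.add i2) i3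
    rw [integral_add i1 i2] at h2
    have h3 : ∫ x : ℝ, f x * (cexp (w * x) * w) = w * TT f w := by
      unfold TT
      rw [← integral_const_mul]
      refine integral_congr_ae (Eventually.of_forall fun x => ?_)
      simp only
      ring
    rw [h3] at h2
    unfold TT at h2 ⊢
    linear_combination h2
  refine ⟨hFa, ?_⟩
  have i1 := int_TT_sq hFa
  have i2 := int_TT_sq hFd
  refine Integrable.mono' ((i1.add i2).const_mul 6) ?_ (Eventually.of_forall fun t => ?_)
  · exact (Lg_cont.mul (((differentiable_TT hFa).continuous.comp (by fun_prop)).norm.pow 2)).aestronglyMeasurable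
  · have h0 := one_le_Lg t
    rw [Real.norm_of_nonneg (by positivity)]
    show Lg t * ‖TT f (t * I)‖ ^ 2 ≤ 6 * (‖TT f (t * I)‖ ^ 2 + ‖TT (deriv f) (t * I)‖ ^ 2)
    rw [hTd, norm_neg, norm_mul, mul_pow]
    have h1 : ‖(t * I : ℂ)‖ ^ 2 = t ^ 2 := by
      rw [norm_mul, Complex.norm_I, mul_one, Complex.norm_real, Real.norm_eq_abs, sq_abs]
    rw [h1]
    have h2 := Lg_lin (L := zL) t
    have h3 : 3 * (1 + |t|) ≤ 6 * (1 + t ^ 2) := by
      nlinarith [sq_nonneg (|t| - 1), sq_abs t, abs_nonneg t]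
    have h4 : 0 ≤ ‖TT f (t * I)‖ ^ 2 := by positivity
    nlinarith

end Pool.Agent.Zk2.WP
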