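import Pool.Agent.H370R2.Digamma
import Pool.Agent.Zk4.Ws

/-! # The archimedean kernel -/

set_option autoImplicit false
set_option maxHeartbeats 2000000

open Complex Filter Topology Set MeasureTheory
open scoped ComplexConjugate

namespace Pool.Agent.Zk2.WP

open H370.DG (er logDeriv_Gamma' summable_er)
open Pool.Agent.Zk4.W

lemma digamma_lim {s : ℂ} (hs : 0 < s.re) :
    Tendsto (fun m : ℕ => log (s + (m + 2)) - ∑ k ∈ Finset.range (m + 2), 1 / (s + k)) atTop
      (𝓝 (logDeriv Gamma s)) := by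
  have h1 := (summable_er hs).hasSum.tendsto_sum_nat
  have h2 := h1.const_add (log (s + 2) - 1 / s - 1 / (s + 1))
  rw [← logDeriv_Gamma' hs] at h2
  refine h2.congr fun m => ?_
  induction m with
  | zero =>
    simp [Finset.sum_range_succ]
    ring
  | succ m ih =>
    rw [Finset.sum_range_succ, ← add_assoc, ih, Finset.sum_range_succ _ (m + 2)]
    unfold er
    push_cast
    rw [show s + ((m : ℂ) + 1 + 2) = s + (m + 3) by ring]
    ring

/-- the decay rate -/
noncomputable def ck (k : ℕ) : ℝ := 2 * k + 1 / 2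

lemma ck_pos (k : ℕ) : 0 < ck k := by unfold ck; positivity

/-- the summand of the difference of the digamma functions -/
noncomputable def ek (k : ℕ) (v : ℝ) : ℝ := 2 * (1 / ck k - ck k / (ck k ^ 2 + v ^ 2))

lemma ek_nonneg (k : ℕ) (v : ℝ) : 0 ≤ ek k v := by
  unfold ek
  have h := ck_pos k
  have : ck k / (ck k ^ 2 + v ^ 2) ≤ 1 / ck k := by
    rw [div_le_div_iff₀ (by positivity) h]
    nlinarith [sq_nonneg v]
  linarith

lemma inv_re (k : ℕ) (v : ℝ) : (1 / ((1 / 4 + (v : ℂ) / 2 * I) + k)).re = 2 * (ck k / (ck k ^ 2 + v ^ 2)) := by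
  have h := ck_pos k
  have e : ((1 / 4 + (v : ℂ) / 2 * I) + k) = ((ck k / 2 : ℝ) : ℂ) + ((v / 2 : ℝ) : ℂ) * I := by
    unfold ck; push_cast; ring
  rw [e, one_div, Complex.inv_re, Complex.normSq_add_mul_I]
  have h2 : (((ck k / 2 : ℝ) : ℂ) + ((v / 2 : ℝ) : ℂ) * I).re = ck k / 2 := by simp
  rw [h2]
  field_simp

/-- the real part of the digamma function on the line -/
noncomputable def dg (v : ℝ) : ℝ := (logDeriv Gamma (1 / 4 + (v : ℂ) / 2 * I)).re

lemma dg_zero : dg 0 = (logDeriv Gamma (1 / 4)).re := by unfold dg; simp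

/-- lower bound for the difference -/
lemma dg_ge (v : ℝ) (K : ℕ) : ∑ k ∈ Finset.range K, ek k v ≤ dg v - dg 0 := by
  have hre : ∀ v : ℝ, (1 / 4 + (v : ℂ) / 2 * I).re = 1 / 4 := by
    intro v
    simp
  have h1 := (Complex.continuous_re.tendsto _).comp (digamma_lim (s := 1 / 4 + (v : ℂ) / 2 * I) (by rw [hre]; norm_num))
  have h0 := (Complex.continuous_re.tendsto _).comp (digamma_lim (s := 1 / 4 + ((0 : ℝ) : ℂ) / 2 * I) (by rw [hre]; norm_num))
  have h2 := h1.sub h0
  refine ge_of_tendsto h2 ?_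
  filter_upwards [eventually_ge_atTop K] with m hm
  simp only [Function.comp_apply, Complex.sub_re, Complex.re_sum, Complex.log_re, inv_re]
  have h3 : Real.log ‖(1 / 4 + ((0 : ℝ) : ℂ) / 2 * I) + ((m : ℂ) + 2)‖ ≤ Real.log ‖(1 / 4 + (v : ℂ) / 2 * I) + ((m : ℂ) + 2)‖ := by
    have e0 : (1 / 4 + ((0 : ℝ) : ℂ) / 2 * I) + ((m : ℂ) + 2) = ((1 / 4 + (m + 2) : ℝ) : ℂ) := by push_cast; ring
    rw [e0, Complex.norm_real, Real.norm_of_nonneg (by positivity)]
    refine Real.log_le_log (by positivity) ?_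
    have e1 : (1 / 4 + (m + 2) : ℝ) = ((1 / 4 + (v : ℂ) / 2 * I) + ((m : ℂ) + 2)).re := by simp
    rw [e1]
    exact Complex.re_le_norm _
  have h4 : ∑ k ∈ Finset.range K, ek k v ≤ ∑ k ∈ Finset.range (m + 2), ek k v :=
    Finset.sum_le_sum_of_subset_of_nonneg (Finset.range_subset_range.2 (by omega)) fun k _ _ => ek_nonneg k v
  have h5 : ∑ k ∈ Finset.range (m + 2), ek k v = (∑ k ∈ Finset.range (m + 2), 2 * (ck k / (ck k ^ 2 + (0 : ℝ) ^ 2))) -
      ∑ k ∈ Finset.range (m + 2), 2 * (ck k / (ck k ^ 2 + v ^ 2)) := by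
    rw [← Finset.sum_sub_distrib]
    refine Finset.sum_congr rfl fun k _ => ?_
    unfold ek
    have h := ck_pos k
    have : ck k / (ck k ^ 2 + (0 : ℝ) ^ 2) = 1 / ck k := by field_simp; ring
    rw [this]
    ring
  linarith

lemma int_exp_cos {c : ℝ} (hc : 0 < c) (v : ℝ) :
    ∫ x in Ioi (0 : ℝ), Real.exp (-(c * x)) * (1 - Real.cos (v * x)) = 1 / c - c / (c ^ 2 + v ^ 2) := by
  have hr : (-(c : ℂ)).re < 0 := by simpa using hc
  have hr2 : (-(c : ℂ) + v * I).re < 0 := by simpa using hc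
  have i1 := integrableOn_exp_mul_complex_Ioi hr 0
  have i2 := integrableOn_exp_mul_complex_Ioi hr2 0
  have k1 := integral_exp_mul_complex_Ioi hr 0
  have k2 := integral_exp_mul_complex_Ioi hr2 0
  have e : ∀ x : ℝ, Real.exp (-(c * x)) * (1 - Real.cos (v * x)) =
      (cexp (-(c : ℂ) * x) - cexp ((-(c : ℂ) + v * I) * x)).re := by
    intro x
    rw [Complex.sub_re, Complex.exp_re, Complex.exp_re]
    simp
    ring
  simp_rw [e]
  have h3 : ∫ x in Ioi (0 : ℝ), (cexp (-(c : ℂ) * x) - cexp ((-(c : ℂ) + v * I) * x)).re =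
      (∫ x in Ioi (0 : ℝ), (cexp (-(c : ℂ) * x) - cexp ((-(c : ℂ) + v * I) * x))).re := by
    have := integral_re (i1.sub i2)
    exact this
  rw [h3, integral_sub i1 i2, k1, k2]
  simp only [Complex.ofReal_zero, mul_zero, Complex.exp_zero]
  rw [Complex.sub_re]
  have e1 : (-1 / -(c : ℂ)).re = 1 / c := by
    rw [neg_div_neg_eq]
    rw [show (1 : ℂ) / (c : ℂ) = ((1 / c : ℝ) : ℂ) by push_cast; rfl, Complex.ofReal_re]
  have e2 : (-1 / (-(c : ℂ) + v * I)).re = c / (c ^ 2 + v ^ 2) := by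
    rw [Complex.div_re, Complex.normSq_apply]
    simp
    field_simp
  rw [e1, e2]

lemma ek_eq (k : ℕ) (v : ℝ) : ∫ x in Ioi (0 : ℝ), 2 * Real.exp (-(ck k * x)) * (1 - Real.cos (v * x)) = ek k v := by
  unfold ek
  rw [← int_exp_cos (ck_pos k) v, ← integral_const_mul]
  refine integral_congr_ae (Eventually.of_forall fun x => ?_)
  simp only
  ring

/-- the partial sums of the kernel -/
noncomputable def kapK (K : ℕ) (x : ℝ) : ℝ := ∑ k ∈ Finset.range K, 2 * Real.exp (-(ck k * x))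

lemma kapK_nonneg (K : ℕ) (x : ℝ) : 0 ≤ kapK K x := Finset.sum_nonneg fun k _ => by positivity

lemma kap_nonneg {x : ℝ} (hx : 0 < x) : 0 ≤ kap x := by
  unfold kap
  have := Real.sinh_pos_iff.2 hx
  positivity

lemma kapK_tendsto {x : ℝ} (hx : 0 < x) : Tendsto (fun K => kapK K x) atTop (𝓝 (kap x)) := by
  have hq : |Real.exp (-(2 * x))| < 1 := by
    rw [abs_of_pos (Real.exp_pos _), Real.exp_lt_one_iff]
    linarith
  have h1 := (hasSum_geometric_of_abs_lt_one hq).mul_left (2 * Real.exp (-(x / 2)))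
  have h2 : ∀ k : ℕ, 2 * Real.exp (-(x / 2)) * Real.exp (-(2 * x)) ^ k = 2 * Real.exp (-(ck k * x)) := by
    intro k
    rw [← Real.exp_nat_mul, mul_assoc, ← Real.exp_add]
    congr 2
    unfold ck
    ring
  simp_rw [h2] at h1
  have h3 : 2 * Real.exp (-(x / 2)) * (1 - Real.exp (-(2 * x)))⁻¹ = kap x := by
    unfold kap
    have hs := Real.sinh_pos_iff.2 hx
    have e1 : Real.sinh x = (Real.exp x - Real.exp (-x)) / 2 := Real.sinh_eq x
    have e2 : Real.exp (-(2 * x)) = Real.exp (-x) * Real.exp (-x) := by rw [← Real.exp_add]; congr 1; ring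
    have e3 : Real.exp (-(x / 2)) = Real.exp (x / 2) * Real.exp (-x) := by rw [← Real.exp_add]; congr 1; ring
    have e4 : Real.exp x * Real.exp (-x) = 1 := by rw [← Real.exp_add]; simp
    have e5 : Real.exp (-x) < 1 := by
      rw [Real.exp_lt_one_iff]
      linarith
    have e6 : 1 - Real.exp (-(2 * x)) ≠ 0 := by
      rw [e2]
      have := Real.exp_pos (-x)
      nlinarith
    rw [eq_div_iff hs.ne', e1]
    field_simp
    rw [e2, e3]
    linear_combination (Real.exp (x / 2)) * e4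
  rw [h3] at h1
  exact h1.tendsto_sum_nat

end Pool.Agent.Zk2.WP
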