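import Pool.Agent.Zk2.WP.Lk
import Pool.Agent.Zk2.WP.Ar1

/-! # The archimedean part of Weil's form -/

set_option autoImplicit false
set_option maxHeartbeats 2000000

open Complex Filter Topology Set MeasureTheory
open scoped ComplexConjugate

namespace Pool.Agent.Zk2.WP

open Pool.Agent.Y23 (TT Fa N2 plancherel N2_nonneg)
open Pool.Agent.Y23.G (gsq gsq_nonneg gsq_cont gsq_int CC four_one CC_zero Fa_shift)
open Pool.Agent.Zk4.W

/-- the defect of the autocorrelation -/
noncomputable def Dd (f : ℝ → ℂ) (x : ℝ) : ℝ := N2 f - (CC f x).re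

lemma cos_int {a : ℝ} {f : ℝ → ℂ} (hf : Fa a f) (x : ℝ) : Integrable (fun v : ℝ => Real.cos (v * x) * gsq f v) := by
  refine Integrable.mono' (gsq_int hf) ?_ (Eventually.of_forall fun v => ?_)
  · exact (Continuous.mul (by fun_prop) (gsq_cont hf)).aestronglyMeasurable
  · rw [Real.norm_eq_abs, abs_mul, abs_of_nonneg (gsq_nonneg f v)]
    have := Real.abs_cos_le_one (v * x)
    have := gsq_nonneg f v
    nlinarith

lemma CC_re {a : ℝ} {f : ℝ → ℂ} (hf : Fa a f) (x : ℝ) :
    2 * Real.pi * (CC f x).re = ∫ v : ℝ, Real.cos (v * x) * gsq f v := by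
  have h1 := four_one (L := zL) hf x
  have hI : Integrable (fun y : ℝ => cexp (-((y * I) * x)) * (gsq f y : ℂ)) := by
    refine Integrable.mono' (gsq_int hf) ?_ (Eventually.of_forall fun v => ?_)
    · exact (Continuous.mul (by fun_prop) (Complex.continuous_ofReal.comp (gsq_cont hf))).aestronglyMeasurable
    · have : -((v * I) * x) = ((-(v * x) : ℝ) : ℂ) * I := by push_cast; ring
      rw [norm_mul, this, Complex.norm_exp_ofReal_mul_I, one_mul, Complex.norm_real,
        Real.norm_of_nonneg (gsq_nonneg f v)]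
  have h2 := integral_re hI
  have h3 : ∀ v : ℝ, RCLike.re (cexp (-((v * I) * x)) * (gsq f v : ℂ)) = Real.cos (v * x) * gsq f v := by
    intro v
    have : -((v * I) * x) = ((-(v * x) : ℝ) : ℂ) * I := by push_cast; ring
    show (cexp (-((v * I) * x)) * (gsq f v : ℂ)).re = _
    rw [Complex.re_mul_ofReal, this, Complex.exp_ofReal_mul_I_re, Real.cos_neg]
  simp_rw [h3] at h2
  rw [h2, h1]
  show _ = (2 * (Real.pi : ℂ) * CC f x).re
  rw [show (2 * (Real.pi : ℂ)) = ((2 * Real.pi : ℝ) : ℂ) by push_cast; rfl, Complex.re_ofReal_mul]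

lemma one_cos_int {a : ℝ} {f : ℝ → ℂ} (hf : Fa a f) (x : ℝ) :
    Integrable (fun v : ℝ => (1 - Real.cos (v * x)) * gsq f v) := by
  have := (gsq_int hf).sub (cos_int hf x)
  refine this.congr (Eventually.of_forall fun v => ?_)
  show gsq f v - Real.cos (v * x) * gsq f v = (1 - Real.cos (v * x)) * gsq f v
  ring

lemma Dd_eq {a : ℝ} {f : ℝ → ℂ} (hf : Fa a f) (x : ℝ) :
    ∫ v : ℝ, (1 - Real.cos (v * x)) * gsq f v = 2 * Real.pi * Dd f x := by
  have h1 : ∫ v : ℝ, (1 - Real.cos (v * x)) * gsq f v = (∫ v : ℝ, gsq f v) - ∫ v : ℝ, Real.cos (v * x) * gsq f v := by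
    rw [← integral_sub (gsq_int hf) (cos_int hf x)]
    refine integral_congr_ae (Eventually.of_forall fun v => ?_)
    simp only
    ring
  have h2 : ∫ v : ℝ, gsq f v = 2 * Real.pi * N2 f := plancherel hf
  rw [h1, h2, ← CC_re hf]
  unfold Dd
  ring

lemma one_cos_nonneg {f : ℝ → ℂ} (x v : ℝ) : 0 ≤ (1 - Real.cos (v * x)) * gsq f v :=
  mul_nonneg (by linarith [Real.cos_le_one (v * x)]) (gsq_nonneg f v)

lemma Dd_nonneg {a : ℝ} {f : ℝ → ℂ} (hf : Fa a f) (x : ℝ) : 0 ≤ Dd f x := by
  have h1 := Dd_eq hf x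
  have h2 : 0 ≤ ∫ v : ℝ, (1 - Real.cos (v * x)) * gsq f v := integral_nonneg fun v => one_cos_nonneg x v
  rw [h1] at h2
  exact nonneg_of_mul_nonneg_right h2 (by positivity)

lemma Dd_cont {a : ℝ} {f : ℝ → ℂ} (hf : Fa a f) : Continuous (Dd f) := by
  have h1 : Continuous (fun x : ℝ => ∫ v : ℝ, (1 - Real.cos (v * x)) * gsq f v) := by
    refine continuous_of_dominated (F := fun x v => (1 - Real.cos (v * x)) * gsq f v) (bound := fun v => 2 * gsq f v)
      (fun x => (one_cos_int hf x).aestronglyMeasurable) (fun x => Eventually.of_forall fun v => ?_)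
      ((gsq_int hf).const_mul 2) (Eventually.of_forall fun v => by fun_prop)
    rw [Real.norm_eq_abs, abs_mul, abs_of_nonneg (gsq_nonneg f v)]
    refine mul_le_mul_of_nonneg_right ?_ (gsq_nonneg f v)
    rw [abs_le]
    constructor <;> linarith [Real.cos_le_one (v * x), Real.neg_one_le_cos (v * x)]
  have h2 : Dd f = fun x => (2 * Real.pi)⁻¹ * ∫ v : ℝ, (1 - Real.cos (v * x)) * gsq f v := by
    funext x
    rw [Dd_eq hf, ← mul_assoc, inv_mul_cancel₀ (by positivity), one_mul]
  rw [h2]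
  exact continuous_const.mul h1

lemma Dd_far {a : ℝ} {f : ℝ → ℂ} (hf : Fa a f) {x : ℝ} (hx : 2 * a < x) : Dd f x = N2 f := by
  unfold Dd
  rw [CC_zero (L := zL) hf hx]
  simp

lemma Dd_le {a : ℝ} {f : ℝ → ℂ} (hf : Fa a f) (x : ℝ) : Dd f x ≤ 2 * N2 f := by
  have h1 := Dd_eq hf x
  have h2 : ∫ v : ℝ, (1 - Real.cos (v * x)) * gsq f v ≤ ∫ v : ℝ, 2 * gsq f v := by
    refine integral_mono (one_cos_int hf x) ((gsq_int hf).const_mul 2) fun v => ?_
    exact mul_le_mul_of_nonneg_right (by linarith [Real.neg_one_le_cos (v * x)]) (gsq_nonneg f v)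
  rw [integral_const_mul, h1] at h2
  have h3 : ∫ v : ℝ, gsq f v = 2 * Real.pi * N2 f := plancherel hf
  rw [h3] at h2
  have hpi := Real.pi_pos
  nlinarith

/-- the exchange of the integrations -/
lemma int_ek {a : ℝ} {f : ℝ → ℂ} (hf : Fa a f) (k : ℕ) :
    ∫ v : ℝ, ek k v * gsq f v = 2 * Real.pi * ∫ x in Ioi (0 : ℝ), 2 * Real.exp (-(ck k * x)) * Dd f x := by
  have hck := ck_pos k
  have hgi := gsq_int hf
  have hexp : Integrable (fun x : ℝ => 4 * Real.exp (-(ck k * x))) (volume.restrict (Ioi 0)) := by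
    have := integrableOn_exp_mul_Ioi (a := -ck k) (by linarith) 0
    refine (this.const_mul 4).congr (Eventually.of_forall fun x => ?_)
    show 4 * Real.exp (-ck k * x) = 4 * Real.exp (-(ck k * x))
    rw [neg_mul]
  have hprod := hgi.mul_prod hexp
  have hI : Integrable (Function.uncurry fun (v x : ℝ) => 2 * Real.exp (-(ck k * x)) * ((1 - Real.cos (v * x)) * gsq f v))
      (volume.prod (volume.restrict (Ioi 0))) := by
    refine Integrable.mono' hprod ?_ (Eventually.of_forall fun z => ?_)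
    · have hc : Continuous (Function.uncurry fun (v x : ℝ) => 2 * Real.exp (-(ck k * x)) * ((1 - Real.cos (v * x)) * gsq f v)) := by
        have := gsq_cont hf
        unfold Function.uncurry
        fun_prop
      exact hc.aestronglyMeasurable
    · show ‖2 * Real.exp (-(ck k * z.2)) * ((1 - Real.cos (z.1 * z.2)) * gsq f z.1)‖ ≤ gsq f z.1 * (4 * Real.exp (-(ck k * z.2)))
      have h1 := one_cos_nonneg (f := f) z.2 z.1
      rw [Real.norm_of_nonneg (by positivity)]
      have h2 : (1 - Real.cos (z.1 * z.2)) * gsq f z.1 ≤ 2 * gsq f z.1 :=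
        mul_le_mul_of_nonneg_right (by linarith [Real.neg_one_le_cos (z.1 * z.2)]) (gsq_nonneg f _)
      have h3 := Real.exp_pos (-(ck k * z.2))
      nlinarith
  have h1 := integral_integral_swap hI
  have h2 : ∀ v : ℝ, (∫ x in Ioi (0 : ℝ), 2 * Real.exp (-(ck k * x)) * ((1 - Real.cos (v * x)) * gsq f v)) = ek k v * gsq f v := by
    intro v
    rw [← ek_eq, ← integral_mul_const]
    refine integral_congr_ae (Eventually.of_forall fun x => ?_)
    simp only
    ring
  have h3 : ∀ x : ℝ, (∫ v : ℝ, 2 * Real.exp (-(ck k * x)) * ((1 - Real.cos (v * x)) * gsq f v)) =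
      2 * Real.pi * (2 * Real.exp (-(ck k * x)) * Dd f x) := by
    intro x
    rw [integral_const_mul, Dd_eq hf]
    ring
  simp_rw [h2, h3] at h1
  rw [h1, integral_const_mul]

lemma ek_int {a : ℝ} {f : ℝ → ℂ} (hf : Fa a f) (k : ℕ) : Integrable (fun v : ℝ => ek k v * gsq f v) := by
  have hck := ck_pos k
  refine Integrable.mono' ((gsq_int hf).const_mul (2 * (1 / ck k))) ?_ (Eventually.of_forall fun v => ?_)
  · have hc : Continuous (ek k) := by
      unfold ek
      refine continuous_const.mul (continuous_const.sub (continuous_const.div (by fun_prop) fun v => ?_))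
      positivity
    exact (hc.mul (gsq_cont hf)).aestronglyMeasurable
  · rw [Real.norm_of_nonneg (mul_nonneg (ek_nonneg k v) (gsq_nonneg f v))]
    refine mul_le_mul_of_nonneg_right ?_ (gsq_nonneg f v)
    unfold ek
    have : 0 ≤ ck k / (ck k ^ 2 + v ^ 2) := by positivity
    linarith

lemma exp_Dd_int {a : ℝ} {f : ℝ → ℂ} (hf : Fa a f) (k : ℕ) :
    IntegrableOn (fun x : ℝ => 2 * Real.exp (-(ck k * x)) * Dd f x) (Ioi 0) := by
  have hck := ck_pos k
  have hexp : IntegrableOn (fun x : ℝ => 4 * N2 f * Real.exp (-(ck k * x))) (Ioi 0) := by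
    have := integrableOn_exp_mul_Ioi (a := -ck k) (by linarith) 0
    refine (this.const_mul (4 * N2 f)).congr (Eventually.of_forall fun x => ?_)
    show 4 * N2 f * Real.exp (-ck k * x) = 4 * N2 f * Real.exp (-(ck k * x))
    rw [neg_mul]
  refine Integrable.mono' hexp ?_ (Eventually.of_forall fun x => ?_)
  · exact (Continuous.mul (by fun_prop) (Dd_cont hf)).aestronglyMeasurable
  · have h0 := Dd_nonneg hf x
    have h1 := Dd_le hf x
    rw [Real.norm_of_nonneg (by positivity)]
    have := Real.exp_pos (-(ck k * x))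
    nlinarith

/-- the partial sums -/
lemma kapK_le {a : ℝ} {f : ℝ → ℂ} (hf : Fa a f) (hI : Integrable (fun v : ℝ => dg v * gsq f v)) (K : ℕ) :
    IntegrableOn (fun x : ℝ => kapK K x * Dd f x) (Ioi 0) ∧
      2 * Real.pi * ∫ x in Ioi (0 : ℝ), kapK K x * Dd f x ≤ ∫ v : ℝ, (dg v - dg 0) * gsq f v := by
  have e : (fun x : ℝ => kapK K x * Dd f x) = fun x => ∑ k ∈ Finset.range K, 2 * Real.exp (-(ck k * x)) * Dd f x := by
    funext x
    unfold kapK
    rw [Finset.sum_mul]
  have hi : IntegrableOn (fun x : ℝ => kapK K x * Dd f x) (Ioi 0) := by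
    rw [e]
    exact integrable_finsetSum _ fun k _ => exp_Dd_int hf k
  refine ⟨hi, ?_⟩
  rw [e, integral_finsetSum _ fun k _ => exp_Dd_int hf k, Finset.mul_sum]
  rw [Finset.sum_congr rfl fun k _ => (int_ek hf k).symm]
  rw [← integral_finsetSum _ fun k _ => ek_int hf k]
  refine integral_mono (integrable_finsetSum _ fun k _ => ek_int hf k) ?_ fun v => ?_
  · have := hI.sub ((gsq_int hf).const_mul (dg 0))
    refine this.congr (Eventually.of_forall fun v => ?_)
    show dg v * gsq f v - dg 0 * gsq f v = (dg v - dg 0) * gsq f v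
    ring
  · simp only
    rw [← Finset.sum_mul]
    exact mul_le_mul_of_nonneg_right (dg_ge v K) (gsq_nonneg f v)

lemma kap_meas : Measurable kap := by
  unfold kap
  fun_prop

/-- the limit of the partial sums -/
lemma kap_le {a : ℝ} {f : ℝ → ℂ} (hf : Fa a f) (hI : Integrable (fun v : ℝ => dg v * gsq f v)) :
    IntegrableOn (fun x : ℝ => kap x * Dd f x) (Ioi 0) ∧
      2 * Real.pi * ∫ x in Ioi (0 : ℝ), kap x * Dd f x ≤ ∫ v : ℝ, (dg v - dg 0) * gsq f v := by
  set R : ℝ := (∫ v : ℝ, (dg v - dg 0) * gsq f v) / (2 * Real.pi) with hR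
  have hpi : 0 < 2 * Real.pi := by positivity
  have hR0 : 0 ≤ R := by
    refine div_nonneg (integral_nonneg fun v => mul_nonneg ?_ (gsq_nonneg f v)) hpi.le
    have := dg_ge v 0
    simpa using this
  have hmeas : AEStronglyMeasurable (fun x : ℝ => kap x * Dd f x) (volume.restrict (Ioi 0)) :=
    (kap_meas.mul (Dd_cont hf).measurable).aestronglyMeasurable
  have h1 : ∫⁻ x in Ioi (0 : ℝ), ENNReal.ofReal (kap x * Dd f x) ≤ ENNReal.ofReal R := by
    have h2 : ∀ᵐ x ∂(volume.restrict (Ioi (0 : ℝ))), ENNReal.ofReal (kap x * Dd f x) =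
        liminf (fun K : ℕ => ENNReal.ofReal (kapK K x * Dd f x)) atTop := by
      refine (ae_restrict_iff' measurableSet_Ioi).2 (Eventually.of_forall fun x hx => ?_)
      refine (Tendsto.liminf_eq ?_).symm
      exact (ENNReal.continuous_ofReal.tendsto _).comp ((kapK_tendsto hx).mul_const _)
    rw [lintegral_congr_ae h2]
    refine (lintegral_liminf_le' fun K => ?_).trans ?_
    · exact ((kapK_le hf hI K).1.aestronglyMeasurable.aemeasurable).ennreal_ofReal
    · refine liminf_le_of_frequently_le' (Frequently.of_forall fun K => ?_)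
      rw [← ofReal_integral_eq_lintegral_ofReal (kapK_le hf hI K).1
        (Eventually.of_forall fun x => mul_nonneg (kapK_nonneg K x) (Dd_nonneg hf x))]
      refine ENNReal.ofReal_le_ofReal ?_
      rw [hR, le_div_iff₀ hpi, mul_comm]
      exact (kapK_le hf hI K).2
  have hnn : ∀ᵐ x ∂(volume.restrict (Ioi (0 : ℝ))), 0 ≤ kap x * Dd f x :=
    (ae_restrict_iff' measurableSet_Ioi).2 (Eventually.of_forall fun x hx =>
      mul_nonneg (kap_nonneg hx) (Dd_nonneg hf x))
  have hint : IntegrableOn (fun x : ℝ => kap x * Dd f x) (Ioi 0) := by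
    refine ⟨hmeas, ?_⟩
    rw [hasFiniteIntegral_iff_ofReal hnn]
    exact h1.trans_lt ENNReal.ofReal_lt_top
  refine ⟨hint, ?_⟩
  have h3 : ∫ x in Ioi (0 : ℝ), kap x * Dd f x ≤ R := by
    rw [integral_eq_lintegral_of_nonneg_ae hnn hmeas]
    exact ENNReal.toReal_le_of_le_ofReal hR0 h1
  rw [hR, le_div_iff₀ hpi, mul_comm] at h3
  exact h3

/-- the archimedean inequality -/
lemma arch_le {a : ℝ} (ha : 0 < a) {f : ℝ → ℂ} (hf : Fa a f) (hI : Integrable (fun v : ℝ => dg v * gsq f v)) :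
    IntegrableOn (fun x : ℝ => kap x * Dd f x) (Ioc 0 (2 * a)) ∧
      K1 a * N2 f + ∫ x in (0 : ℝ)..(2 * a), kap x * Dd f x ≤
        1 / (2 * Real.pi) * ∫ v : ℝ, (dg v - Real.log Real.pi) * gsq f v := by
  obtain ⟨h1, h2⟩ := kap_le hf hI
  have hI1 : IntegrableOn (fun x : ℝ => kap x * Dd f x) (Ioc 0 (2 * a)) := h1.mono_set Ioc_subset_Ioi_self
  have hI2 : IntegrableOn (fun x : ℝ => kap x * Dd f x) (Ioi (2 * a)) :=
    h1.mono_set (Ioi_subset_Ioi (by positivity))
  refine ⟨hI1, ?_⟩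
  have h3 : ∫ x in Ioi (0 : ℝ), kap x * Dd f x =
      (∫ x in (0 : ℝ)..(2 * a), kap x * Dd f x) + (∫ x in Ioi (2 * a), kap x) * N2 f := by
    rw [← Ioc_union_Ioi_eq_Ioi (show (0 : ℝ) ≤ 2 * a by positivity),
      setIntegral_union (Ioc_disjoint_Ioi le_rfl) measurableSet_Ioi hI1 hI2,
      intervalIntegral.integral_of_le (by positivity), ← integral_mul_const]
    congr 1
    refine setIntegral_congr_fun measurableSet_Ioi fun x hx => ?_
    rw [Dd_far hf hx]
  have h4 : ∫ v : ℝ, (dg v - Real.log Real.pi) * gsq f v = (∫ v : ℝ, (dg v - dg 0) * gsq f v) +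
      (dg 0 - Real.log Real.pi) * (2 * Real.pi * N2 f) := by
    have h5 : ∫ v : ℝ, gsq f v = 2 * Real.pi * N2 f := plancherel hf
    have e1 : ∫ v : ℝ, (dg v - Real.log Real.pi) * gsq f v = (∫ v : ℝ, dg v * gsq f v) -
        ∫ v : ℝ, Real.log Real.pi * gsq f v := by
      rw [← integral_sub hI ((gsq_int hf).const_mul _)]
      refine integral_congr_ae (Eventually.of_forall fun v => ?_)
      simp only
      ring
    have e2 : ∫ v : ℝ, (dg v - dg 0) * gsq f v = (∫ v : ℝ, dg v * gsq f v) - ∫ v : ℝ, dg 0 * gsq f v := by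
      rw [← integral_sub hI ((gsq_int hf).const_mul _)]
      refine integral_congr_ae (Eventually.of_forall fun v => ?_)
      simp only
      ring
    rw [e1, e2, integral_const_mul, integral_const_mul, h5]
    ring
  rw [h3] at h2
  unfold K1
  rw [← dg_zero, h4]
  have hpi : 0 < 2 * Real.pi := by positivity
  set A := ∫ v : ℝ, (dg v - dg 0) * gsq f v
  set B := ∫ x in (0 : ℝ)..(2 * a), kap x * Dd f x
  set C := ∫ x in Ioi (2 * a), kap x
  have h6 : B + C * N2 f ≤ 1 / (2 * Real.pi) * A := by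
    rw [one_div, ← div_eq_inv_mul, le_div_iff₀ hpi, mul_comm]
    exact h2
  have h7 : 1 / (2 * Real.pi) * (A + (dg 0 - Real.log Real.pi) * (2 * Real.pi * N2 f)) =
      1 / (2 * Real.pi) * A + (dg 0 - Real.log Real.pi) * N2 f := by
    field_simp
  rw [h7]
  linarith

end Pool.Agent.Zk2.WP
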