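import Pool.Agent.Zk2.WP.Ar2

/-! # Real and imaginary parts -/

set_option autoImplicit false
set_option maxHeartbeats 2000000

open Complex Filter Topology Set MeasureTheory
open scoped ComplexConjugate

namespace Pool.Agent.Zk2.WP

open Pool.Agent.Y23 (TT Fa N2 plancherel N2_nonneg)
open Pool.Agent.Y23.G (gsq gsq_nonneg gsq_cont gsq_int CC four_one CC_zero Fa_shift)
open Pool.Agent.Zk4.W

/-- Weil's form on the side of the transforms -/
noncomputable def PhiT (N : ℕ) (f : ℝ → ℂ) : ℝ :=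
  2 * (TT f (1 / 2) * conj (TT f (-(1 / 2)))).re +
    1 / (2 * Real.pi) * (∫ v : ℝ, (dg v - Real.log Real.pi) * gsq f v) -
    2 * ∑ n ∈ Finset.Icc 1 N, ArithmeticFunction.vonMangoldt n / Real.sqrt n * (CC f (Real.log n)).re

/-- the real part -/
noncomputable def rf (f : ℝ → ℂ) (x : ℝ) : ℝ := (f x).re

/-- the imaginary part -/
noncomputable def mf (f : ℝ → ℂ) (x : ℝ) : ℝ := (f x).im

lemma rf_Fa {a : ℝ} {f : ℝ → ℂ} (hf : Fa a f) : Fa a (fun x => (rf f x : ℂ)) :=
  ⟨(hf.1.re).ofReal, fun x hx => by simp [rf, hf.2 x hx]⟩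

lemma mf_Fa {a : ℝ} {f : ℝ → ℂ} (hf : Fa a f) : Fa a (fun x => (mf f x : ℂ)) :=
  ⟨(hf.1.im).ofReal, fun x hx => by simp [mf, hf.2 x hx]⟩

lemma CC_ofReal (u : ℝ → ℝ) (x : ℝ) : CC (fun y => (u y : ℂ)) x = (hcor u x : ℂ) := by
  unfold CC hcor
  rw [← integral_complex_ofReal]
  refine integral_congr_ae (Eventually.of_forall fun y => ?_)
  simp only [Complex.conj_ofReal]
  rw [← Complex.ofReal_mul, mul_comm]

lemma N2_ofReal (u : ℝ → ℝ) : N2 (fun y => (u y : ℂ)) = ∫ x, u x ^ 2 := by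
  unfold N2
  refine integral_congr_ae (Eventually.of_forall fun y => ?_)
  simp only
  rw [Complex.norm_real, Real.norm_eq_abs, sq_abs]

lemma hcor_zero (u : ℝ → ℝ) : hcor u 0 = ∫ x, u x ^ 2 := by
  unfold hcor
  refine integral_congr_ae (Eventually.of_forall fun y => ?_)
  simp only
  rw [add_zero]
  ring

lemma Dd_ofReal (u : ℝ → ℝ) (x : ℝ) : Dd (fun y => (u y : ℂ)) x = hcor u 0 - hcor u x := by
  unfold Dd
  rw [N2_ofReal, CC_ofReal, Complex.ofReal_re, hcor_zero]

lemma mul_shift_int {a : ℝ} {f g : ℝ → ℂ} (hf : Fa a f) (hg : Fa a g) (x : ℝ) :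
    Integrable (fun y : ℝ => f (y + x) * conj (g y)) := by
  have h1 : Fa (a + |x|) (fun y => f (y + x)) := Fa_shift (L := zL) le_rfl hf
  have h2 : MemLp (fun y => conj (g y)) 2 volume := hg.1.star
  exact h1.1.integrable_mul h2

lemma hcor_int {a : ℝ} {u : ℝ → ℝ} (hf : Fa a (fun y => (u y : ℂ))) (x : ℝ) :
    Integrable (fun y : ℝ => u y * u (y + x)) := by
  have h1 := (mul_shift_int hf hf x).re
  refine h1.congr (Eventually.of_forall fun y => ?_)
  show ((u (y + x) : ℂ) * conj (u y : ℂ)).re = u y * u (y + x)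
  rw [Complex.conj_ofReal, ← Complex.ofReal_mul, Complex.ofReal_re, mul_comm]

lemma CC_split {a : ℝ} {f : ℝ → ℂ} (hf : Fa a f) (x : ℝ) : (CC f x).re = hcor (rf f) x + hcor (mf f) x := by
  unfold CC hcor
  rw [← integral_add (hcor_int (rf_Fa hf) x) (hcor_int (mf_Fa hf) x)]
  have h1 := integral_re (mul_shift_int hf hf x)
  refine Eq.trans h1.symm (integral_congr_ae (Eventually.of_forall fun y => ?_))
  show (f (y + x) * conj (f y)).re = rf f y * rf f (y + x) + mf f y * mf f (y + x)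
  unfold rf mf
  rw [Complex.mul_re, Complex.conj_re, Complex.conj_im]
  ring

lemma N2_split {a : ℝ} {f : ℝ → ℂ} (hf : Fa a f) : N2 f = (∫ x, rf f x ^ 2) + ∫ x, mf f x ^ 2 := by
  have h := CC_split hf 0
  rw [hcor_zero, hcor_zero] at h
  rw [← h]
  unfold CC N2
  have h1 := integral_re (mul_shift_int hf hf 0)
  refine Eq.trans (integral_congr_ae (Eventually.of_forall fun y => ?_)) h1
  show ‖f y‖ ^ 2 = (f (y + 0) * conj (f y)).re
  rw [add_zero, Complex.mul_conj, Complex.ofReal_re, Complex.normSq_eq_norm_sq]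

lemma Dd_split {a : ℝ} {f : ℝ → ℂ} (hf : Fa a f) (x : ℝ) :
    Dd f x = Dd (fun y => (rf f y : ℂ)) x + Dd (fun y => (mf f y : ℂ)) x := by
  rw [Dd_ofReal, Dd_ofReal, hcor_zero, hcor_zero]
  unfold Dd
  rw [N2_split hf, CC_split hf]
  ring

lemma TT_real {a : ℝ} {f : ℝ → ℂ} (hf : Fa a f) (σ : ℝ) :
    TT f σ = ((∫ x, rf f x * Real.exp (σ * x) : ℝ) : ℂ) + ((∫ x, mf f x * Real.exp (σ * x) : ℝ) : ℂ) * I := by
  have hi : Integrable (fun x : ℝ => f x * cexp ((σ : ℂ) * x)) := hf.integrable_mul (by fun_prop)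
  have h1 := integral_re hi
  have h2 := integral_im hi
  have e : ∀ x : ℝ, f x * cexp ((σ : ℂ) * x) = f x * ((Real.exp (σ * x) : ℝ) : ℂ) := by
    intro x
    push_cast
    rfl
  have e1 : ∫ x, rf f x * Real.exp (σ * x) = (TT f σ).re := by
    refine Eq.trans (integral_congr_ae (Eventually.of_forall fun x => ?_)) h1
    show rf f x * Real.exp (σ * x) = (f x * cexp ((σ : ℂ) * x)).re
    rw [e, Complex.re_mul_ofReal]
    rfl
  have e2 : ∫ x, mf f x * Real.exp (σ * x) = (TT f σ).im := by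
    refine Eq.trans (integral_congr_ae (Eventually.of_forall fun x => ?_)) h2
    show mf f x * Real.exp (σ * x) = (f x * cexp ((σ : ℂ) * x)).im
    rw [e, Complex.im_mul_ofReal]
    rfl
  rw [e1, e2]
  exact (Complex.re_add_im _).symm

lemma poles {a : ℝ} {f : ℝ → ℂ} (hf : Fa a f) :
    (TT f (1 / 2) * conj (TT f (-(1 / 2)))).re =
      (∫ x, rf f x * Real.exp (x / 2)) * (∫ x, rf f x * Real.exp (-(x / 2))) +
      (∫ x, mf f x * Real.exp (x / 2)) * (∫ x, mf f x * Real.exp (-(x / 2))) := by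
  have h1 := TT_real hf (1 / 2)
  have h2 := TT_real hf (-(1 / 2))
  have e1 : ((1 / 2 : ℝ) : ℂ) = 1 / 2 := by push_cast; rfl
  have e2 : ((-(1 / 2) : ℝ) : ℂ) = -(1 / 2) := by push_cast; rfl
  have e3 : ∀ x : ℝ, (1 / 2 : ℝ) * x = x / 2 := fun x => by ring
  have e4 : ∀ x : ℝ, (-(1 / 2) : ℝ) * x = -(x / 2) := fun x => by ring
  rw [e1] at h1
  rw [e2] at h2
  simp_rw [e3] at h1
  simp_rw [e4] at h2
  rw [h1, h2]
  simp only [map_add, map_mul, Complex.conj_ofReal, Complex.conj_I]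
  rw [Complex.mul_re]
  simp

/-- the comparison of the two forms -/
theorem PhiR_le {a : ℝ} (ha : 0 < a) (N : ℕ) {f : ℝ → ℂ} (hf : Fa a f) (hI : Integrable (fun v : ℝ => dg v * gsq f v)) :
    PhiR a N (rf f) + PhiR a N (mf f) ≤ PhiT N f := by
  obtain ⟨h1, h2⟩ := arch_le ha hf hI
  have hr := rf_Fa hf
  have hm := mf_Fa hf
  have kint : ∀ u : ℝ → ℝ, Fa a (fun x => (u x : ℂ)) → (∀ x, Dd (fun y => (u y : ℂ)) x ≤ Dd f x) →
      IntegrableOn (fun x : ℝ => kap x * (hcor u 0 - hcor u x)) (Ioc 0 (2 * a)) := by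
    intro u hu hle
    refine Integrable.mono' h1 ?_ ?_
    · have : (fun x : ℝ => kap x * (hcor u 0 - hcor u x)) = fun x => kap x * Dd (fun y => (u y : ℂ)) x := by
        funext x
        rw [Dd_ofReal]
      rw [this]
      exact (kap_meas.mul (Dd_cont hu).measurable).aestronglyMeasurable
    · refine (ae_restrict_iff' measurableSet_Ioc).2 (Eventually.of_forall fun x hx => ?_)
      rw [← Dd_ofReal, Real.norm_of_nonneg (mul_nonneg (kap_nonneg hx.1) (Dd_nonneg hu x))]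
      exact mul_le_mul_of_nonneg_left (hle x) (kap_nonneg hx.1)
  have ir := kint (rf f) hr fun x => by
    rw [Dd_split hf]
    linarith [Dd_nonneg hm x]
  have im' := kint (mf f) hm fun x => by
    rw [Dd_split hf]
    linarith [Dd_nonneg hr x]
  have h3 : (∫ x in (0 : ℝ)..(2 * a), kap x * (hcor (rf f) 0 - hcor (rf f) x)) +
      (∫ x in (0 : ℝ)..(2 * a), kap x * (hcor (mf f) 0 - hcor (mf f) x)) = ∫ x in (0 : ℝ)..(2 * a), kap x * Dd f x := by
    rw [← intervalIntegral.integral_add]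
    · refine intervalIntegral.integral_congr fun x _ => ?_
      show kap x * (hcor (rf f) 0 - hcor (rf f) x) + kap x * (hcor (mf f) 0 - hcor (mf f) x) = kap x * Dd f x
      rw [Dd_split hf, Dd_ofReal, Dd_ofReal]
      ring
    · rwa [intervalIntegrable_iff_integrableOn_Ioc_of_le (by positivity)]
    · rwa [intervalIntegrable_iff_integrableOn_Ioc_of_le (by positivity)]
  have h4 : ∑ n ∈ Finset.Icc 1 N, ArithmeticFunction.vonMangoldt n / Real.sqrt n * (CC f (Real.log n)).re =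
      (∑ n ∈ Finset.Icc 1 N, ArithmeticFunction.vonMangoldt n / Real.sqrt n * hcor (rf f) (Real.log n)) +
      ∑ n ∈ Finset.Icc 1 N, ArithmeticFunction.vonMangoldt n / Real.sqrt n * hcor (mf f) (Real.log n) := by
    rw [← Finset.sum_add_distrib]
    refine Finset.sum_congr rfl fun n _ => ?_
    rw [CC_split hf]
    ring
  unfold PhiR PhiT
  rw [h4, poles hf]
  rw [← h3, N2_split hf] at h2
  linarith

end Pool.Agent.Zk2.WP
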