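import Pool.Agent.Y23.Fo2

/-! # Averages of functions of compact support -/

set_option autoImplicit false
set_option linter.unusedSectionVars false
set_option maxHeartbeats 2000000

open Complex Filter Topology Set MeasureTheory
open scoped ComplexConjugate Convolution

namespace Pool.Agent.Zk2.WP

open Pool.Agent.Y23

/-- the average of `f` over an interval of length `2 η` -/
noncomputable def Av (η : ℝ) (f : ℝ → ℂ) (x : ℝ) : ℂ := ((2 * η)⁻¹ : ℝ) * ∫ y in (x - η)..(x + η), f y

/-- the multiplier of the average -/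
noncomputable def sg (η : ℝ) (w : ℂ) : ℂ := ((2 * η)⁻¹ : ℝ) * ∫ y in (-η)..η, cexp (w * y)

lemma Av_cont {η : ℝ} {f : ℝ → ℂ} (hf : Integrable f) : Continuous (Av η f) := by
  have h1 : Continuous (fun x : ℝ => ∫ y in (0 : ℝ)..x, f y) :=
    intervalIntegral.continuous_primitive (fun a b => hf.intervalIntegrable) 0
  have e : Av η f = fun x => ((2 * η)⁻¹ : ℝ) * ((∫ y in (0 : ℝ)..(x + η), f y) - ∫ y in (0 : ℝ)..(x - η), f y) := by
    funext x
    unfold Av
    rw [intervalIntegral.integral_interval_sub_left hf.intervalIntegrable hf.intervalIntegrable]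
  rw [e]
  exact continuous_const.mul ((h1.comp (by fun_prop)).sub (h1.comp (by fun_prop)))

lemma Av_norm {η : ℝ} (hη : 0 < η) {f : ℝ → ℂ} (hf : Integrable f) (x : ℝ) :
    ‖Av η f x‖ ≤ (2 * η)⁻¹ * ∫ y, ‖f y‖ := by
  unfold Av
  rw [norm_mul, Complex.norm_real, Real.norm_of_nonneg (by positivity)]
  refine mul_le_mul_of_nonneg_left ?_ (by positivity)
  rw [intervalIntegral.integral_of_le (by linarith)]
  exact (norm_integral_le_integral_norm _).trans
    (setIntegral_le_integral hf.norm (Eventually.of_forall fun y => norm_nonneg _))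

lemma Av_supp {η b : ℝ} (hη : 0 < η) {f : ℝ → ℂ} (hf : ∀ x, b < |x| → f x = 0) {x : ℝ} (hx : b + η < |x|) :
    Av η f x = 0 := by
  unfold Av
  have : ∫ y in (x - η)..(x + η), f y = ∫ y in (x - η)..(x + η), (0 : ℂ) := by
    refine intervalIntegral.integral_congr fun y hy => ?_
    rw [uIcc_of_le (by linarith)] at hy
    refine hf y ?_
    have h1 : |x| ≤ |y| + η := by
      have h2 : |x| ≤ |y| + |x - y| := by
        have := abs_add_le y (x - y)
        simpa using this
      have h3 : |x - y| ≤ η := by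
        rw [abs_le]
        constructor <;> linarith [hy.1, hy.2]
      linarith
    linarith
  rw [this]
  simp

lemma Av_Fa {η b : ℝ} (hη : 0 < η) {f : ℝ → ℂ} (hf : Fa b f) : Fa (b + η) (Av η f) := by
  refine ⟨?_, fun x hx => Av_supp hη hf.2 hx⟩
  have hc := Av_cont (η := η) hf.integrable
  have hcs : HasCompactSupport (Av η f) := by
    refine HasCompactSupport.intro (K := Icc (-(b + η)) (b + η)) isCompact_Icc fun x hx => ?_
    refine Av_supp hη hf.2 ?_
    by_contra hcon
    rw [not_lt, abs_le] at hcon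
    exact hx hcon
  exact hc.memLp_of_hasCompactSupport hcs

lemma TT_Av {η b : ℝ} (hη : 0 < η) {f : ℝ → ℂ} (hf : Fa b f) (w : ℂ) : TT (Av η f) w = TT f w * sg η w := by
  set g : ℝ → ℂ := fun v => ((2 * η)⁻¹ : ℝ) * (Icc (-η) η).indicator (fun v : ℝ => cexp (w * v)) v with hg
  have hc : Continuous (fun v : ℝ => cexp (w * v)) := by fun_prop
  have hgi : Integrable g := ((hc.integrableOn_Icc).integrable_indicator measurableSet_Icc).const_mul _
  have hfi : Integrable (fun x => f x * cexp (w * x)) := hf.integrable_mul hc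
  have e1 : ∀ x, Av η f x * cexp (w * x) =
      ((fun x => f x * cexp (w * x)) ⋆[ContinuousLinearMap.mul ℂ ℂ, volume] g) x := by
    intro x
    unfold MeasureTheory.convolution
    simp only [ContinuousLinearMap.mul_apply', hg]
    have e2 : ∀ t : ℝ, f t * cexp (w * t) * (((2 * η)⁻¹ : ℝ) * (Icc (-η) η).indicator (fun v : ℝ => cexp (w * v)) (x - t)) =
        (((2 * η)⁻¹ : ℝ) * cexp (w * x)) * (Icc (x - η) (x + η)).indicator f t := by
      intro t
      by_cases ht : t ∈ Icc (x - η) (x + η)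
      · have ht' : x - t ∈ Icc (-η) η := ⟨by linarith [ht.2], by linarith [ht.1]⟩
        rw [indicator_of_mem ht, indicator_of_mem ht']
        have : cexp (w * x) = cexp (w * t) * cexp (w * ((x - t : ℝ) : ℂ)) := by
          rw [← Complex.exp_add]
          congr 1
          push_cast
          ring
        rw [this]
        ring
      · have ht' : x - t ∉ Icc (-η) η := fun h => ht ⟨by linarith [h.2], by linarith [h.1]⟩
        rw [indicator_of_notMem ht, indicator_of_notMem ht']
        ring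
    simp only [e2]
    rw [integral_const_mul, integral_indicator measurableSet_Icc, integral_Icc_eq_integral_Ioc]
    unfold Av
    rw [intervalIntegral.integral_of_le (by linarith)]
    ring
  unfold TT
  rw [integral_congr_ae (Eventually.of_forall e1)]
  rw [MeasureTheory.integral_convolution _ hfi hgi]
  simp only [ContinuousLinearMap.mul_apply']
  congr 1
  simp only [hg]
  rw [integral_const_mul, integral_indicator measurableSet_Icc, integral_Icc_eq_integral_Ioc]
  unfold sg
  rw [intervalIntegral.integral_of_le (by linarith)]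

lemma sg_norm {η : ℝ} (hη : 0 < η) (v : ℝ) : ‖sg η (v * I)‖ ≤ 1 := by
  unfold sg
  rw [norm_mul, Complex.norm_real, Real.norm_of_nonneg (by positivity)]
  have h1 : ‖∫ y in (-η)..η, cexp ((v * I) * y)‖ ≤ 1 * |η - -η| := by
    refine intervalIntegral.norm_integral_le_of_norm_le_const fun y _ => ?_
    have : (v * I : ℂ) * y = ((v * y : ℝ) : ℂ) * I := by push_cast; ring
    rw [this, Complex.norm_exp_ofReal_mul_I]
  have h2 : |η - -η| = 2 * η := by
    rw [abs_of_pos (by linarith)]
    ring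
  rw [h2, one_mul] at h1
  calc (2 * η)⁻¹ * ‖∫ y in (-η)..η, cexp ((v * I) * y)‖ ≤ (2 * η)⁻¹ * (2 * η) :=
        mul_le_mul_of_nonneg_left h1 (by positivity)
    _ = 1 := inv_mul_cancel₀ (by positivity)

lemma sg_sub {η : ℝ} (hη : 0 < η) (w : ℂ) (h : ‖w‖ * η ≤ 1) : ‖sg η w - 1‖ ≤ 2 * (‖w‖ * η) := by
  have hc : Continuous (fun v : ℝ => cexp (w * v)) := by fun_prop
  have e : sg η w - 1 = ((2 * η)⁻¹ : ℝ) * ∫ y in (-η)..η, (cexp (w * y) - 1) := by
    unfold sg
    rw [intervalIntegral.integral_sub (hc.intervalIntegrable _ _) (continuous_const.intervalIntegrable _ _), mul_sub]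
    congr 1
    rw [intervalIntegral.integral_const]
    have : (η - -η) = 2 * η := by ring
    rw [this]
    simp only [Complex.real_smul, mul_one]
    rw [← Complex.ofReal_mul, inv_mul_cancel₀ (by positivity), Complex.ofReal_one]
  rw [e, norm_mul, Complex.norm_real, Real.norm_of_nonneg (by positivity)]
  have h1 : ‖∫ y in (-η)..η, (cexp (w * y) - 1)‖ ≤ 2 * (‖w‖ * η) * |η - -η| := by
    refine intervalIntegral.norm_integral_le_of_norm_le_const fun y hy => ?_
    rw [uIoc_of_le (by linarith)] at hy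
    have hy1 : |y| ≤ η := abs_le.2 ⟨hy.1.le, hy.2⟩
    have h2 : ‖w * (y : ℂ)‖ ≤ ‖w‖ * η := by
      rw [norm_mul, Complex.norm_real]
      exact mul_le_mul_of_nonneg_left hy1 (norm_nonneg _)
    have h3 := Complex.norm_exp_sub_one_le (x := w * y) (h2.trans h)
    linarith
  have h2 : |η - -η| = 2 * η := by
    rw [abs_of_pos (by linarith)]
    ring
  rw [h2] at h1
  calc (2 * η)⁻¹ * ‖∫ y in (-η)..η, (cexp (w * y) - 1)‖ ≤ (2 * η)⁻¹ * (2 * (‖w‖ * η) * (2 * η)) :=
        mul_le_mul_of_nonneg_left h1 (by positivity)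
    _ = 2 * (‖w‖ * η) := by field_simp

lemma sg_tendsto (w : ℂ) {η : ℕ → ℝ} (h0 : ∀ n, 0 < η n) (h : Tendsto η atTop (𝓝 0)) :
    Tendsto (fun n => sg (η n) w) atTop (𝓝 1) := by
  have h1 : Tendsto (fun n => ‖w‖ * η n) atTop (𝓝 0) := by simpa using h.const_mul ‖w‖
  rw [tendsto_iff_norm_sub_tendsto_zero]
  have h2 : Tendsto (fun n => 2 * (‖w‖ * η n)) atTop (𝓝 0) := by simpa using h1.const_mul 2
  refine squeeze_zero' (Eventually.of_forall fun n => norm_nonneg _) ?_ h2
  filter_upwards [h1.eventually (ge_mem_nhds (show (0 : ℝ) < 1 by norm_num))] with n hn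
  exact sg_sub (h0 n) w hn

/-- the double average -/
noncomputable def A2 (η : ℝ) (f : ℝ → ℂ) : ℝ → ℂ := Av η (Av η f)

lemma A2_Fa {η b : ℝ} (hη : 0 < η) {f : ℝ → ℂ} (hf : Fa b f) : Fa (b + 2 * η) (A2 η f) := by
  have := Av_Fa hη (Av_Fa hη hf)
  have e : b + η + η = b + 2 * η := by ring
  rw [e] at this
  exact this

lemma TT_A2 {η b : ℝ} (hη : 0 < η) {f : ℝ → ℂ} (hf : Fa b f) (w : ℂ) : TT (A2 η f) w = TT f w * sg η w ^ 2 := by
  unfold A2
  rw [TT_Av hη (Av_Fa hη hf), TT_Av hη hf]
  ring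

lemma A2_lip {η b : ℝ} (hη : 0 < η) {f : ℝ → ℂ} (hf : Fa b f) : ∃ K : NNReal, LipschitzWith K (A2 η f) := by
  set B : ℝ := (2 * η)⁻¹ * ∫ y, ‖f y‖ with hB
  have hB0 : 0 ≤ B := mul_nonneg (by positivity) (integral_nonneg fun _ => norm_nonneg _)
  have hb : ∀ x, ‖Av η f x‖ ≤ B := Av_norm hη hf.integrable
  have hc := Av_cont (η := η) hf.integrable
  have hii : ∀ a b, IntervalIntegrable (Av η f) volume a b := fun a b => hc.intervalIntegrable a b
  refine ⟨⟨(2 * η)⁻¹ * (2 * B), by positivity⟩, LipschitzWith.of_dist_le_mul fun x y => ?_⟩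
  rw [dist_eq_norm, dist_eq_norm]
  show ‖A2 η f x - A2 η f y‖ ≤ ((2 * η)⁻¹ * (2 * B)) * ‖x - y‖
  have e0 : A2 η f x - A2 η f y = ((2 * η)⁻¹ : ℝ) *
      ((∫ t in y + η..x + η, Av η f t) - ∫ t in y - η..x - η, Av η f t) := by
    show ((2 * η)⁻¹ : ℝ) * (∫ t in (x - η)..(x + η), Av η f t) - ((2 * η)⁻¹ : ℝ) * (∫ t in (y - η)..(y + η), Av η f t) = _
    rw [← mul_sub]
    congr 1
    have h1 := intervalIntegral.integral_add_adjacent_intervals (hii (x - η) (x + η)) (hii (x + η) (y + η))
    have h2 := intervalIntegral.integral_add_adjacent_intervals (hii (x - η) (y - η)) (hii (y - η) (y + η))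
    have h3 : ∫ t in (x + η)..(y + η), Av η f t = -∫ t in y + η..x + η, Av η f t := intervalIntegral.integral_symm _ _
    have h4 : ∫ t in (x - η)..(y - η), Av η f t = -∫ t in y - η..x - η, Av η f t := intervalIntegral.integral_symm _ _
    rw [h3] at h1
    rw [h4] at h2
    linear_combination h1 - h2
  rw [e0]
  rw [norm_mul, Complex.norm_real, Real.norm_of_nonneg (by positivity), mul_assoc]
  refine mul_le_mul_of_nonneg_left ?_ (by positivity)
  refine (norm_sub_le _ _).trans ?_
  have k1 : ‖∫ t in y + η..x + η, Av η f t‖ ≤ B * |x + η - (y + η)| :=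
    intervalIntegral.norm_integral_le_of_norm_le_const fun t _ => hb t
  have k2 : ‖∫ t in y - η..x - η, Av η f t‖ ≤ B * |x - η - (y - η)| :=
    intervalIntegral.norm_integral_le_of_norm_le_const fun t _ => hb t
  have e1 : x + η - (y + η) = x - y := by ring
  have e2 : x - η - (y - η) = x - y := by ring
  rw [e1] at k1
  rw [e2] at k2
  rw [Real.norm_eq_abs]
  linarith

end Pool.Agent.Zk2.WP
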