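import Pool.Agent.Zk2.WP.Sp1
import Pool.Agent.TH803.LG.RHq

/-! # Weil's criterion -/

set_option autoImplicit false
set_option maxHeartbeats 2000000

open Complex Filter Topology Set MeasureTheory
open scoped ComplexConjugate

namespace Pool.Agent.Zk2.WP

open Pool.Agent.Y23 (TT Fa N2 TT_mul_exp TT_add TT_smul)
open Pool.Agent.Y23.G (Fa_shift TT_shift Hd QQ GG mu Zt zd zc)
open Pool.Agent.Zk4.W

/-- the multipliers -/
structure Mp (R : ℂ → ℂ) : Prop where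
  bd : ∃ C : ℝ, 0 ≤ C ∧ ∀ w : ℂ, |w.re| ≤ 1 / 2 → ‖R w‖ ≤ C
  ex : ∀ (a : ℝ) (f : ℝ → ℂ), Fa a f → ∃ (b : ℝ) (g : ℝ → ℂ), a ≤ b ∧ Fa b g ∧ ∀ w, TT g w = R w * TT f w

lemma Mp.one : Mp (fun _ => 1) :=
  ⟨⟨1, zero_le_one, fun w _ => by simp⟩, fun a f hf => ⟨a, f, le_rfl, hf, fun w => by simp⟩⟩

lemma Mp.mul {R S : ℂ → ℂ} (hR : Mp R) (hS : Mp S) : Mp (fun w => R w * S w) := by
  obtain ⟨C, hC, h1⟩ := hR.bd
  obtain ⟨D, hD, h2⟩ := hS.bd
  refine ⟨⟨C * D, mul_nonneg hC hD, fun w hw => ?_⟩, fun a f hf => ?_⟩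
  · rw [norm_mul]
    exact mul_le_mul (h1 w hw) (h2 w hw) (norm_nonneg _) hC
  · obtain ⟨b, g, hb, hg, e1⟩ := hS.ex a f hf
    obtain ⟨c, k, hc, hk, e2⟩ := hR.ex b g hg
    exact ⟨c, k, hb.trans hc, hk, fun w => by rw [e2, e1]; ring⟩

lemma Mp.pow {R : ℂ → ℂ} (hR : Mp R) (n : ℕ) : Mp (fun w => R w ^ n) := by
  induction n with
  | zero => simpa using Mp.one
  | succ n ih =>
    have := ih.mul hR
    simpa only [pow_succ] using this

lemma Mp.prod {ι : Type} (T : Finset ι) (R : ι → ℂ → ℂ) (h : ∀ i ∈ T, Mp (R i)) : Mp (fun w => ∏ i ∈ T, R i w) := by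
  classical
  induction T using Finset.induction_on with
  | empty => simpa using Mp.one
  | insert i T hi ih =>
    have h1 := (h i (Finset.mem_insert_self _ _)).mul (ih fun j hj => h j (Finset.mem_insert_of_mem hj))
    simpa only [Finset.prod_insert hi] using h1

lemma Mp.lin (A B : ℂ) : Mp (fun w => A + B * cexp w) := by
  refine ⟨⟨‖A‖ + ‖B‖ * Real.exp (1 / 2), by positivity, fun w hw => ?_⟩, fun a f hf => ?_⟩
  · refine (norm_add_le _ _).trans ?_
    rw [norm_mul, Complex.norm_exp]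
    have : Real.exp w.re ≤ Real.exp (1 / 2) := Real.exp_le_exp.2 ((le_abs_self _).trans hw)
    have := mul_le_mul_of_nonneg_left this (norm_nonneg B)
    linarith
  · have h1 : Fa (a + |(-1 : ℝ)|) (fun x => f (x + (-1 : ℝ))) := Fa_shift (L := zL) le_rfl hf
    have h0 : Fa (a + |(-1 : ℝ)|) f := hf.mono (by linarith [abs_nonneg (-1 : ℝ)])
    refine ⟨a + |(-1 : ℝ)|, fun x => A * f x + B * f (x + (-1 : ℝ)), by linarith [abs_nonneg (-1 : ℝ)],
      (h0.smul A).add (h1.smul B), fun w => ?_⟩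
    rw [TT_add (h0.smul A) (h1.smul B), TT_smul, TT_smul, TT_shift (L := zL)]
    have : -(w * ((-1 : ℝ) : ℂ)) = w := by push_cast; ring
    rw [this]
    ring

lemma sg_le {z : ℂ} (hz : |z.re| ≤ 1 / 2) : ‖sg 1 z‖ ≤ 2 := by
  unfold sg
  rw [norm_mul, Complex.norm_real, Real.norm_of_nonneg (by positivity)]
  have h1 : ‖∫ y in (-1)..(1 : ℝ), cexp (z * y)‖ ≤ 2 * |(1 : ℝ) - -1| := by
    refine intervalIntegral.norm_integral_le_of_norm_le_const fun y hy => ?_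
    rw [uIoc_of_le (by norm_num)] at hy
    rw [Complex.norm_exp]
    have h2 : (z * (y : ℂ)).re = z.re * y := by simp
    rw [h2]
    have h3 : z.re * y ≤ 1 / 2 := by
      have h4 : |z.re * y| ≤ 1 / 2 * 1 := by
        rw [abs_mul]
        exact mul_le_mul hz (abs_le.2 ⟨hy.1.le, hy.2⟩) (abs_nonneg _) (by norm_num)
      have := le_abs_self (z.re * y)
      linarith
    have h5 : Real.exp (1 / 2) ≤ 2 := by
      have h6 := Real.exp_one_lt_d9
      have h7 : Real.exp (1 / 2) * Real.exp (1 / 2) = Real.exp 1 := by rw [← Real.exp_add]; norm_num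
      have h8 := Real.exp_pos (1 / 2)
      nlinarith
    exact (Real.exp_le_exp.2 h3).trans h5
  have h2 : |(1 : ℝ) - -1| = 2 := by norm_num
  rw [h2] at h1
  norm_num at h1 ⊢
  linarith

lemma sg_far {z : ℂ} (hz : |z.re| ≤ 1 / 2) (h0 : z ≠ 0) : ‖sg 1 z‖ ≤ 2 / ‖z‖ := by
  have hzp : 0 < ‖z‖ := norm_pos_iff.2 h0
  have h5 : Real.exp (1 / 2) ≤ 2 := by
    have h6 := Real.exp_one_lt_d9
    have h7 : Real.exp (1 / 2) * Real.exp (1 / 2) = Real.exp 1 := by rw [← Real.exp_add]; norm_num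
    have h8 := Real.exp_pos (1 / 2)
    nlinarith
  have e : sg 1 z = (cexp z - cexp (-z)) / (2 * z) := by
    unfold sg
    rw [integral_exp_mul_complex h0]
    push_cast
    rw [mul_one, mul_one, mul_neg_one]
    field_simp
  rw [e, norm_div, norm_mul, Complex.norm_two]
  rw [div_le_div_iff₀ (by positivity) hzp]
  have h6 : ‖cexp z - cexp (-z)‖ ≤ 4 := by
    refine (norm_sub_le _ _).trans ?_
    rw [Complex.norm_exp, Complex.norm_exp, Complex.neg_re]
    have h7 : Real.exp z.re ≤ Real.exp (1 / 2) := Real.exp_le_exp.2 ((le_abs_self _).trans hz)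
    have h8 : Real.exp (-z.re) ≤ Real.exp (1 / 2) := Real.exp_le_exp.2 ((neg_le_abs _).trans hz)
    linarith
  nlinarith

lemma sg_real (b : ℝ) : ∃ r : ℝ, 1 ≤ r ∧ sg 1 (b : ℂ) = (r : ℂ) := by
  have hc : Continuous (fun y : ℝ => Real.exp (b * y)) := by fun_prop
  refine ⟨(2 * 1)⁻¹ * ∫ y in (-1)..(1 : ℝ), Real.exp (b * y), ?_, ?_⟩
  · have h1 : ∫ y in (-1)..(1 : ℝ), (1 + b * y) ≤ ∫ y in (-1)..(1 : ℝ), Real.exp (b * y) := by
      refine intervalIntegral.integral_mono_on (by norm_num) ?_ (hc.intervalIntegrable _ _) fun y _ => ?_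
      · exact Continuous.intervalIntegrable (by fun_prop) _ _
      · have := Real.add_one_le_exp (b * y)
        linarith
    have h2 : ∫ y in (-1)..(1 : ℝ), (1 + b * y) = 2 := by
      rw [intervalIntegral.integral_add (by simp) (Continuous.intervalIntegrable (by fun_prop) _ _),
        intervalIntegral.integral_const_mul, integral_id]
      norm_num
    rw [h2] at h1
    linarith
  · unfold sg
    push_cast
    rw [← intervalIntegral.integral_ofReal]
    congr 1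
    refine intervalIntegral.integral_congr fun y _ => ?_
    show cexp (b * y) = ((Real.exp (b * y) : ℝ) : ℂ)
    push_cast
    rfl

/-- the modulated average -/
lemma Mp.avg (γ : ℝ) : Mp (fun w => sg 1 (w - γ * I)) := by
  have hre : ∀ w : ℂ, (w - γ * I).re = w.re := fun w => by simp
  refine ⟨⟨2, by norm_num, fun w hw => sg_le (by rwa [hre])⟩, fun a f hf => ?_⟩
  have h1 : Fa a (fun x => f x * cexp ((γ * I) * x)) := hf.mul_bdd (by fun_prop)
  have h2 := Av_Fa one_pos h1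
  have h3 : Fa (a + 1) (fun x => Av 1 (fun x => f x * cexp ((γ * I) * x)) x * cexp ((-(γ * I)) * x)) :=
    h2.mul_bdd (by fun_prop)
  refine ⟨a + 1, _, by linarith, h3, fun w => ?_⟩
  rw [TT_mul_exp, TT_Av one_pos h1, TT_mul_exp]
  have e1 : (γ * I : ℂ) + (-(γ * I) + w) = w := by ring
  have e2 : (-(γ * I) + w : ℂ) = w - γ * I := by ring
  rw [e1, e2, mul_comm]

/-- the basic function -/
lemma base_fn (γ : ℝ) : ∃ f : ℝ → ℂ, Fa 1 f ∧ ∀ w, TT f w = sg 1 (w - γ * I) := by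
  have h0 : Fa 1 ((Icc (-1) 1).indicator (fun _ : ℝ => (((2 * 1)⁻¹ : ℝ) : ℂ))) := by
    refine ⟨memLp_indicator_const 2 measurableSet_Icc _ (Or.inr ?_), fun x hx => ?_⟩
    · rw [Real.volume_Icc]
      exact ENNReal.ofReal_ne_top
    · refine indicator_of_notMem (fun h => ?_) _
      exact absurd (abs_le.2 h) (not_le.2 hx)
  refine ⟨_, h0.mul_bdd (g := fun x : ℝ => cexp (-(γ * I) * x)) (by fun_prop), fun w => ?_⟩
  unfold TT sg
  have e : ∀ x : ℝ, (Icc (-1) 1).indicator (fun _ : ℝ => (((2 * 1)⁻¹ : ℝ) : ℂ)) x * cexp (-(γ * I) * x) * cexp (w * x) =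
      (Icc (-1) 1).indicator (fun x : ℝ => (((2 * 1)⁻¹ : ℝ) : ℂ) * cexp ((w - γ * I) * x)) x := by
    intro x
    by_cases hx : x ∈ Icc (-1 : ℝ) 1
    · rw [indicator_of_mem hx, indicator_of_mem hx, mul_assoc, ← Complex.exp_add]
      congr 2
      ring
    · rw [indicator_of_notMem hx, indicator_of_notMem hx, zero_mul, zero_mul]
  simp_rw [e]
  rw [integral_indicator measurableSet_Icc, integral_const_mul, integral_Icc_eq_integral_Ioc,
    intervalIntegral.integral_of_le (by norm_num)]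

lemma exp_ne {x y : ℂ} (h : |(x - y).im| ≤ 5) (hne : x ≠ y) : cexp x ≠ cexp y := by
  intro he
  obtain ⟨n, hn⟩ := Complex.exp_eq_exp_iff_exists_int.1 he
  have h1 : (x - y).im = n * (2 * Real.pi) := by
    rw [hn]
    simp
  rw [h1, abs_mul, abs_of_pos (by positivity : (0 : ℝ) < 2 * Real.pi)] at h
  have hpi := Real.pi_gt_three
  have h2 : |(n : ℝ)| < 1 := by
    by_contra hcon
    rw [not_lt] at hcon
    nlinarith
  have h3 : n = 0 := by
    have : |n| < 1 := by exact_mod_cast h2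
    exact Int.abs_lt_one_iff.1 this
  rw [h3] at hn
  simp at hn
  exact hne hn

/-- a function with a negative value of Weil's form -/
theorem exists_neg {ρ₀ : ℂ} (h0 : ρ₀ ∈ Zs) (hb : 1 / 2 < ρ₀.re) :
    ∃ (a : ℝ) (f : ℝ → ℂ), 0 < a ∧ Hd a f ∧ QQ (D := zd (L := zL)) f < 0 := by
  classical
  set γ : ℝ := ρ₀.im with hγ
  set b : ℝ := ρ₀.re - 1 / 2 with hbdef
  have hb0 : 0 < b := by rw [hbdef]; linarith
  set w₀ : ℂ := ρ₀ - 1 / 2 with hw₀
  set z₁ : ℂ := -conj w₀ with hz₁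
  have w₀re : w₀.re = b := by rw [hw₀]; simp [hbdef]
  have w₀im : w₀.im = γ := by rw [hw₀]; simp [hγ]
  have z₁re : z₁.re = -b := by rw [hz₁, Complex.neg_re, Complex.conj_re, w₀re]
  have z₁im : z₁.im = γ := by rw [hz₁, Complex.neg_im, Complex.conj_im, w₀im, neg_neg]
  have hb1 : b ≤ 1 / 2 := by rw [hbdef]; linarith [h0.2.2]
  have hw₀' : |w₀.re| ≤ 1 / 2 := by rw [w₀re, abs_of_pos hb0]; exact hb1
  have hz₁' : |z₁.re| ≤ 1 / 2 := by rw [z₁re, abs_neg, abs_of_pos hb0]; exact hb1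
  -- the finite set of zeros
  have hfin := Y23.isZ_finite (|γ| + 5)
  set T : Finset ℂ := (hfin.toFinset.filter fun s => |s.im - γ| ≤ 5 ∧ s ≠ ρ₀ ∧ s ≠ 1 - conj ρ₀) with hT
  have memT : ∀ s, s ∈ T ↔ (s ∈ Zs ∧ |s.im - γ| ≤ 5 ∧ s ≠ ρ₀ ∧ s ≠ 1 - conj ρ₀) := by
    intro s
    rw [hT, Finset.mem_filter, Set.Finite.mem_toFinset]
    constructor
    · rintro ⟨h1, h2⟩
      exact ⟨h1.1, h2⟩
    · rintro ⟨h1, h2⟩
      refine ⟨⟨h1, ?_⟩, h2⟩
      have := abs_sub_abs_le_abs_sub s.im γ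
      linarith [h2.1]
  set P : ℂ → ℂ := fun w => ∏ s ∈ T, (-cexp (s - 1 / 2) + 1 * cexp w) with hP
  have hPM : Mp P := Mp.prod T (fun s w => -cexp (s - 1 / 2) + 1 * cexp w) fun s _ => Mp.lin _ _
  have hPz : ∀ s ∈ T, P (s - 1 / 2) = 0 := fun s hs => Finset.prod_eq_zero hs (by ring)
  have hPne : ∀ w : ℂ, w.im = γ → (∀ s ∈ T, w ≠ s - 1 / 2) → P w ≠ 0 := by
    intro w hw h1
    refine Finset.prod_ne_zero_iff.2 fun s hs h2 => ?_
    refine exp_ne (x := w) (y := s - 1 / 2) ?_ (h1 s hs) ?_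
    · have h3 := ((memT s).1 hs).2.1
      rw [Complex.sub_im, hw]
      have : (s - 1 / 2 : ℂ).im = s.im := by simp
      rw [this, abs_sub_comm]
      exact h3
    · linear_combination h2
  have hP0 : P w₀ ≠ 0 := hPne w₀ w₀im fun s hs h => ((memT s).1 hs).2.2.1 (by
    have : s = w₀ + 1 / 2 := by rw [h]; ring
    rw [this, hw₀]; ring)
  have hP1 : P z₁ ≠ 0 := hPne z₁ z₁im fun s hs h => ((memT s).1 hs).2.2.2 (by
    have : s = z₁ + 1 / 2 := by rw [h]; ring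
    rw [this, hz₁, hw₀, map_sub, map_div₀, map_one, map_ofNat]; ring)
  have hexp : cexp w₀ - cexp z₁ ≠ 0 := by
    refine sub_ne_zero.2 (exp_ne ?_ fun h => ?_)
    · rw [Complex.sub_im, w₀im, z₁im, sub_self, abs_zero]; norm_num
    · have := congrArg Complex.re h
      rw [w₀re, z₁re] at this
      linarith
  set B : ℂ := ((P w₀)⁻¹ + (P z₁)⁻¹) / (cexp w₀ - cexp z₁) with hB
  set A : ℂ := (P w₀)⁻¹ - B * cexp w₀ with hA
  have hQ0 : A + B * cexp w₀ = (P w₀)⁻¹ := by rw [hA]; ring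
  have hQ1 : A + B * cexp z₁ = -(P z₁)⁻¹ := by
    have : B * (cexp w₀ - cexp z₁) = (P w₀)⁻¹ + (P z₁)⁻¹ := div_mul_cancel₀ _ hexp
    rw [hA]
    linear_combination -this
  set R : ℂ → ℂ := fun w => (A + B * cexp w) * P w with hR
  have hRM : Mp R := (Mp.lin A B).mul hPM
  have hR0 : R w₀ = 1 := by
    show (A + B * cexp w₀) * P w₀ = 1
    rw [hQ0, inv_mul_cancel₀ hP0]
  have hR1 : R z₁ = -1 := by
    show (A + B * cexp z₁) * P z₁ = -1
    rw [hQ1, neg_mul, inv_mul_cancel₀ hP1]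
  have hRz : ∀ s ∈ T, R (s - 1 / 2) = 0 := fun s hs => by
    show (A + B * cexp (s - 1 / 2)) * P (s - 1 / 2) = 0
    rw [hPz s hs, mul_zero]
  obtain ⟨C, hC, hRC⟩ := hRM.bd
  -- the functions
  set S : ℂ → ℂ := fun w => sg 1 (w - γ * I) with hS
  obtain ⟨f0, hf0, hTf0⟩ := base_fn γ
  have hfn : ∀ n : ℕ, ∃ (a : ℝ) (f : ℝ → ℂ), 0 < a ∧ Fa a f ∧ ∀ w, TT f w = R w * S w ^ n * S w := by
    intro n
    obtain ⟨a, f, ha, hf, h1⟩ := (hRM.mul ((Mp.avg γ).pow n)).ex 1 f0 hf0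
    exact ⟨a, f, by linarith, hf, fun w => by rw [h1, hTf0]⟩
  have hSre : ∀ w : ℂ, (w - γ * I).re = w.re := fun w => by simp
  have hS2 : ∀ w : ℂ, |w.re| ≤ 1 / 2 → ‖S w‖ ≤ 2 := fun w hw => sg_le (by rwa [hSre])
  have hSfar : ∀ w : ℂ, |w.re| ≤ 1 / 2 → 5 < |w.im - γ| → ‖S w‖ ≤ 2 / |w.im - γ| := by
    intro w hw h5
    have him : (w - γ * I).im = w.im - γ := by simp
    have h1 : |w.im - γ| ≤ ‖w - γ * I‖ := by
      rw [← him]
      exact Complex.abs_im_le_norm _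
    have hne : w - γ * I ≠ 0 := by
      intro h
      rw [h, norm_zero] at h1
      linarith
    refine (sg_far (by rwa [hSre]) hne).trans ?_
    exact div_le_div_of_nonneg_left (by norm_num) (by linarith) h1
  obtain ⟨r0, hr0, hS0⟩ := sg_real b
  obtain ⟨r1, hr1, hS1⟩ := sg_real (-b)
  have hSw₀ : S w₀ = r0 := by
    show sg 1 (w₀ - γ * I) = r0
    have : w₀ - γ * I = (b : ℂ) := by
      apply Complex.ext
      · rw [hSre, w₀re]; simp
      · simp [w₀im]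
    rw [this, hS0]
  have hSz₁ : S z₁ = r1 := by
    show sg 1 (z₁ - γ * I) = r1
    have : z₁ - γ * I = ((-b : ℝ) : ℂ) := by
      apply Complex.ext
      · rw [hSre, z₁re]; simp
      · simp [z₁im]
    rw [this, hS1]
  -- the weights
  have hsum := Y23.G.zsummable (D := zd (L := zL)) γ
  set κ : Zt (D := zd (L := zL)) → ℝ := fun ρ => (mu (D := zd (L := zL)) ρ : ℝ) * (1 / (1 + ((ρ : ℂ).im - γ) ^ 2)) with hκ
  have hκ0 : ∀ ρ, 0 ≤ κ ρ := fun ρ => by positivity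
  set Z : ℝ := ∑' ρ, κ ρ with hZ
  have hZ0 : 0 ≤ Z := tsum_nonneg hκ0
  obtain ⟨n, hn⟩ := exists_pow_lt_of_lt_one (show (0 : ℝ) < 1 / (8 * C ^ 2 * Z + 1) by positivity)
    (show (4 / 25 : ℝ) < 1 by norm_num)
  obtain ⟨a, f, ha, hf, hTf⟩ := hfn n
  -- the strip
  have hstrip : ∀ ρ : Zt (D := zd (L := zL)), |((ρ : ℂ) - 1 / 2).re| ≤ 1 / 2 := by
    intro ρ
    have h1 := (zero_iff (ρ : ℂ)).2 ρ.2
    have h2 : ((ρ : ℂ) - 1 / 2).re = (ρ : ℂ).re - 1 / 2 := by simp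
    rw [h2, abs_le]
    constructor <;> linarith [h1.2.1, h1.2.2]
  have him : ∀ s : ℂ, (s - 1 / 2 : ℂ).im = s.im := fun s => by simp
  -- the domain
  have hdom : Y23.G.Dom (D := zd (L := zL)) f := by
    refine Summable.of_nonneg_of_le (fun ρ => by positivity) (fun ρ => ?_) (hsum.mul_left (C ^ 2 * (4 : ℝ) ^ n * 104))
    have hw := hstrip ρ
    set w : ℂ := (ρ : ℂ) - 1 / 2 with hwdef
    have hwim : w.im = (ρ : ℂ).im := him _
    rw [hTf]
    have h1 : ‖R w * S w ^ n * S w‖ ^ 2 ≤ C ^ 2 * 4 ^ n * ‖S w‖ ^ 2 := by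
      rw [norm_mul, norm_mul, norm_pow, mul_pow, mul_pow]
      have k1 : ‖R w‖ ^ 2 ≤ C ^ 2 := pow_le_pow_left₀ (norm_nonneg _) (hRC w hw) 2
      have k2 : (‖S w‖ ^ n) ^ 2 ≤ 4 ^ n := by
        rw [← pow_mul, mul_comm n 2, pow_mul]
        refine pow_le_pow_left₀ (by positivity) ?_ n
        have := pow_le_pow_left₀ (norm_nonneg _) (hS2 w hw) 2
        linarith
      gcongr
    have h2 : ‖S w‖ ^ 2 ≤ 104 * (1 / (1 + ((ρ : ℂ).im - γ) ^ 2)) := by
      rw [← hwim]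
      rcases le_or_gt |w.im - γ| 5 with h5 | h5
      · have k1 := pow_le_pow_left₀ (norm_nonneg _) (hS2 w hw) 2
        have k2 : (w.im - γ) ^ 2 ≤ 25 := by
          rw [← sq_abs]
          nlinarith [abs_nonneg (w.im - γ)]
        have k3 : (4 : ℝ) ≤ 104 * (1 / (1 + (w.im - γ) ^ 2)) := by
          rw [mul_one_div, le_div_iff₀ (by positivity)]
          linarith
        linarith
      · have k1 := pow_le_pow_left₀ (norm_nonneg _) (hSfar w hw h5) 2
        have k2 : 25 < (w.im - γ) ^ 2 := by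
          rw [← sq_abs]
          nlinarith
        refine k1.trans ?_
        rw [div_pow, sq_abs, mul_one_div, div_le_div_iff₀ (by linarith) (by positivity)]
        nlinarith
    have h3 : (0 : ℝ) ≤ mu (D := zd (L := zL)) (ρ : ℂ) := Nat.cast_nonneg _
    calc (mu (D := zd (L := zL)) (ρ : ℂ) : ℝ) * ‖R w * S w ^ n * S w‖ ^ 2
        ≤ mu (D := zd (L := zL)) (ρ : ℂ) * (C ^ 2 * 4 ^ n * (104 * (1 / (1 + ((ρ : ℂ).im - γ) ^ 2)))) := by
          refine mul_le_mul_of_nonneg_left (h1.trans ?_) h3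
          exact mul_le_mul_of_nonneg_left h2 (by positivity)
      _ = _ := by ring
  refine ⟨a, f, ha, (Y23.G.Hd_iff (D := zd (L := zL)) (EC := zc (L := zL)) ha f).2 ⟨hf, hdom⟩, ?_⟩
  -- the value
  have hcw : ∀ w : ℂ, (-conj w).re = -w.re ∧ (-conj w).im = w.im := fun w => by simp
  have hmain : ∀ ρ : Zt (D := zd (L := zL)), (mu (D := zd (L := zL)) (ρ : ℂ) : ℝ) * (GG f f ((ρ : ℂ) - 1 / 2)).re ≤
      (if (ρ : ℂ) = ρ₀ then (-1 : ℝ) else 0) + 8 * C ^ 2 * (4 / 25) ^ n * κ ρ := by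
    intro ρ
    have hZs := (zero_iff (ρ : ℂ)).2 ρ.2
    have hK : 0 ≤ 8 * C ^ 2 * (4 / 25) ^ n * κ ρ := mul_nonneg (by positivity) (hκ0 ρ)
    have hμ : (0 : ℝ) ≤ mu (D := zd (L := zL)) (ρ : ℂ) := Nat.cast_nonneg _
    by_cases e0 : (ρ : ℂ) = ρ₀
    · rw [if_pos e0]
      have h1 : GG f f ((ρ : ℂ) - 1 / 2) = ((-(r0 ^ n * r0 * (r1 ^ n * r1)) : ℝ) : ℂ) := by
        unfold GG
        rw [e0, ← hw₀, ← hz₁, hTf, hTf, hR0, hR1, hSw₀, hSz₁]
        simp only [map_mul, map_pow, map_neg, map_one, Complex.conj_ofReal]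
        push_cast
        ring
      rw [h1, Complex.ofReal_re]
      have hμ1 : (1 : ℝ) ≤ mu (D := zd (L := zL)) (ρ : ℂ) := by
        have := (zd (L := zL)).mpos _ ρ.2
        exact_mod_cast this
      have k1 : 1 ≤ r0 ^ n * r0 * (r1 ^ n * r1) := by
        have a1 : 1 ≤ r0 ^ n := one_le_pow₀ hr0
        have a2 : 1 ≤ r1 ^ n := one_le_pow₀ hr1
        have a3 : 1 ≤ r0 ^ n * r0 := by nlinarith
        have a4 : 1 ≤ r1 ^ n * r1 := by nlinarith
        nlinarith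
      nlinarith
    · rw [if_neg e0, zero_add]
      by_cases e1 : (ρ : ℂ) = 1 - conj ρ₀
      · have h1 : GG f f ((ρ : ℂ) - 1 / 2) = ((-(r0 ^ n * r0 * (r1 ^ n * r1)) : ℝ) : ℂ) := by
          have h2 : (ρ : ℂ) - 1 / 2 = z₁ := by
            rw [e1, hz₁, hw₀, map_sub, map_div₀, map_one, map_ofNat]; ring
          have h3 : -conj z₁ = w₀ := by rw [hz₁, map_neg, Complex.conj_conj, neg_neg]
          unfold GG
          rw [h2, h3, hTf, hTf, hR0, hR1, hSw₀, hSz₁]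
          simp only [map_mul, map_pow, map_one, Complex.conj_ofReal]
          push_cast
          ring
        rw [h1, Complex.ofReal_re]
        have k1 : 0 ≤ r0 ^ n * r0 * (r1 ^ n * r1) := by positivity
        nlinarith
      · rcases le_or_gt |(ρ : ℂ).im - γ| 5 with h5 | h5
        · have h1 : (ρ : ℂ) ∈ T := (memT _).2 ⟨hZs, h5, e0, e1⟩
          have h2 : GG f f ((ρ : ℂ) - 1 / 2) = 0 := by
            unfold GG
            rw [hTf, hRz _ h1]
            ring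
          rw [h2, Complex.zero_re, mul_zero]
          exact hK
        · have hw := hstrip ρ
          set w : ℂ := (ρ : ℂ) - 1 / 2 with hwdef
          have hwim : w.im = (ρ : ℂ).im := him _
          rw [← hwim] at h5
          have hw' : |(-conj w).re| ≤ 1 / 2 := by rw [(hcw w).1, abs_neg]; exact hw
          have b1 := hSfar w hw h5
          have b2 := hSfar (-conj w) hw' (by rw [(hcw w).2]; exact h5)
          rw [(hcw w).2] at b2
          have hx : (0 : ℝ) < |w.im - γ| := by linarith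
          have b3 : 2 / |w.im - γ| ≤ 2 / 5 := div_le_div_of_nonneg_left (by norm_num) (by norm_num) h5.le
          have b4 : ‖GG f f w‖ ≤ C ^ 2 * (4 / 25) ^ n * (8 * (1 / (1 + ((ρ : ℂ).im - γ) ^ 2))) := by
            have nrm : ∀ v, ‖R v * S v ^ n * S v‖ = ‖R v‖ * ‖S v‖ ^ n * ‖S v‖ := fun v => by
              rw [norm_mul (R v * S v ^ n), norm_mul (R v), norm_pow]
            unfold GG
            rw [norm_mul, RCLike.norm_conj, hTf, hTf, nrm, nrm]
            have c1 := hRC w hw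
            have c2 := hRC (-conj w) hw'
            have c3 : ‖S w‖ ^ n ≤ (2 / 5) ^ n := pow_le_pow_left₀ (norm_nonneg _) (b1.trans b3) n
            have c4 : ‖S (-conj w)‖ ^ n ≤ (2 / 5) ^ n := pow_le_pow_left₀ (norm_nonneg _) (b2.trans b3) n
            have c5 : 2 / |w.im - γ| * (2 / |w.im - γ|) ≤ 8 * (1 / (1 + ((ρ : ℂ).im - γ) ^ 2)) := by
              rw [← hwim, div_mul_div_comm, ← sq, ← sq, sq_abs, mul_one_div]
              have : 25 < (w.im - γ) ^ 2 := by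
                rw [← sq_abs]
                nlinarith
              rw [div_le_div_iff₀ (by linarith) (by positivity)]
              nlinarith
            have c6 : ((2 : ℝ) / 5) ^ n * (2 / 5) ^ n = (4 / 25) ^ n := by
              rw [← mul_pow]; norm_num
            calc ‖R w‖ * ‖S w‖ ^ n * ‖S w‖ * (‖R (-conj w)‖ * ‖S (-conj w)‖ ^ n * ‖S (-conj w)‖)
                ≤ C * (2 / 5) ^ n * (2 / |w.im - γ|) * (C * (2 / 5) ^ n * (2 / |w.im - γ|)) := by gcongr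
              _ = C ^ 2 * ((2 / 5) ^ n * (2 / 5) ^ n) * (2 / |w.im - γ| * (2 / |w.im - γ|)) := by ring
              _ ≤ C ^ 2 * ((2 / 5) ^ n * (2 / 5) ^ n) * (8 * (1 / (1 + ((ρ : ℂ).im - γ) ^ 2))) :=
                  mul_le_mul_of_nonneg_left c5 (by positivity)
              _ = _ := by rw [c6]
          calc (mu (D := zd (L := zL)) (ρ : ℂ) : ℝ) * (GG f f w).re ≤
                mu (D := zd (L := zL)) (ρ : ℂ) * (C ^ 2 * (4 / 25) ^ n * (8 * (1 / (1 + ((ρ : ℂ).im - γ) ^ 2)))) :=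
                mul_le_mul_of_nonneg_left ((Complex.re_le_norm _).trans b4) hμ
            _ = _ := by rw [hκ]; ring
  have hs1 : Summable (fun ρ : Zt (D := zd (L := zL)) => if (ρ : ℂ) = ρ₀ then (-1 : ℝ) else 0) := by
    refine summable_of_ne_finset_zero (s := {⟨ρ₀, (zero_iff ρ₀).1 h0⟩}) fun ρ hρ => ?_
    rw [Finset.mem_singleton] at hρ
    rw [if_neg fun h => hρ (Subtype.ext h)]
  have hs2 : Summable (fun ρ : Zt (D := zd (L := zL)) => 8 * C ^ 2 * (4 / 25) ^ n * κ ρ) := hsum.mul_left _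
  have hs3 : ∑' ρ : Zt (D := zd (L := zL)), (if (ρ : ℂ) = ρ₀ then (-1 : ℝ) else 0) = -1 := by
    rw [tsum_eq_single (⟨ρ₀, (zero_iff ρ₀).1 h0⟩ : Zt (D := zd (L := zL)))]
    · rw [if_pos rfl]
    · intro ρ hρ
      rw [if_neg fun h => hρ (Subtype.ext h)]
  have hQsum : Summable (fun ρ : Zt (D := zd (L := zL)) => (mu (D := zd (L := zL)) (ρ : ℂ) : ℝ) * (GG f f ((ρ : ℂ) - 1 / 2)).re) := by
    have h1 := (Y23.G.summable_GG (DZ := zd (L := zL)) hdom hdom)
    have h2 := h1.mapL Complex.reCLM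
    refine h2.congr fun ρ => ?_
    show (((mu (D := zd (L := zL)) (ρ : ℂ) : ℕ) : ℂ) * GG f f ((ρ : ℂ) - 1 / 2)).re = _
    rw [show ((mu (D := zd (L := zL)) (ρ : ℂ) : ℕ) : ℂ) = (((mu (D := zd (L := zL)) (ρ : ℂ) : ℝ)) : ℂ) by push_cast; rfl,
      Complex.re_ofReal_mul]
  have hfinal : QQ (D := zd (L := zL)) f ≤ -1 + 8 * C ^ 2 * (4 / 25) ^ n * Z := by
    have h1 := hQsum.tsum_le_tsum hmain (hs1.add hs2)
    rw [hs1.tsum_add hs2, hs3, tsum_mul_left] at h1
    exact h1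
  have hlast : 8 * C ^ 2 * (4 / 25) ^ n * Z < 1 := by
    have h1 : 0 ≤ 8 * C ^ 2 * Z := by positivity
    have h2 : (8 * C ^ 2 * Z) * (4 / 25 : ℝ) ^ n ≤ (8 * C ^ 2 * Z) * (1 / (8 * C ^ 2 * Z + 1)) :=
      mul_le_mul_of_nonneg_left hn.le h1
    have h3 : (8 * C ^ 2 * Z) * (1 / (8 * C ^ 2 * Z + 1)) < 1 := by
      rw [mul_one_div, div_lt_one (by positivity)]
      linarith
    calc 8 * C ^ 2 * (4 / 25) ^ n * Z = (8 * C ^ 2 * Z) * (4 / 25 : ℝ) ^ n := by ring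
      _ < 1 := h2.trans_lt h3
  linarith

end Pool.Agent.Zk2.WP
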