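import Pool.Agent.Zk2.WP.Ar3
import Pool.Agent.Zk2.WP.Av

/-! # Passage to the limit -/

set_option autoImplicit false
set_option maxHeartbeats 2000000

open Complex Filter Topology Set MeasureTheory
open scoped ComplexConjugate

namespace Pool.Agent.Zk2.WP

open Pool.Agent.Y23 (TT Fa N2 plancherel N2_nonneg)
open Pool.Agent.Y23.G (gsq gsq_nonneg gsq_cont gsq_int CC four_one CC_zero Fa_shift Lg one_le_Lg Hd GD GD_cont GD_bd QQ
  weil aL)
open Pool.Agent.Zk4.W

lemma dg_eq (v : ℝ) : dg v - Real.log Real.pi = GD (L := zL) v := (GD_z v).symm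

lemma dg_cont : Continuous dg := by
  have : dg = fun v => GD (L := zL) v + Real.log Real.pi := by
    funext v
    rw [← dg_eq]
    ring
  rw [this]
  exact (GD_cont (L := zL)).add continuous_const

lemma dg_int {a : ℝ} {f : ℝ → ℂ} (hf : Fa a f) (hL : Integrable (fun v : ℝ => Lg v * gsq f v)) :
    Integrable (fun v : ℝ => dg v * gsq f v) := by
  obtain ⟨C, hC, h⟩ := GD_bd (L := zL)
  refine Integrable.mono' (hL.const_mul (C + |Real.log Real.pi|)) (dg_cont.mul (gsq_cont hf)).aestronglyMeasurable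
    (Eventually.of_forall fun v => ?_)
  rw [norm_mul, Real.norm_of_nonneg (gsq_nonneg f v), ← mul_assoc]
  refine mul_le_mul_of_nonneg_right ?_ (gsq_nonneg f v)
  have h1 := (h v).1
  have h2 := one_le_Lg v
  have h3 : dg v = GD (L := zL) v + Real.log Real.pi := by rw [← dg_eq]; ring
  rw [Real.norm_eq_abs, h3]
  have h4 := abs_add_le (GD (L := zL) v) (Real.log Real.pi)
  have h5 : |Real.log Real.pi| * 1 ≤ |Real.log Real.pi| * Lg v := mul_le_mul_of_nonneg_left h2 (abs_nonneg _)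
  linarith

/-- the lengths -/
noncomputable def et (δ : ℝ) (n : ℕ) : ℝ := δ / ((n : ℝ) + 1)

lemma et_pos {δ : ℝ} (hδ : 0 < δ) (n : ℕ) : 0 < et δ n := by unfold et; positivity

lemma et_le {δ : ℝ} (hδ : 0 < δ) (n : ℕ) : et δ n ≤ δ := by
  unfold et
  rw [div_le_iff₀ (by positivity)]
  have : (0 : ℝ) ≤ n := Nat.cast_nonneg n
  nlinarith

lemma et_tendsto (δ : ℝ) : Tendsto (et δ) atTop (𝓝 0) := by
  have h := (tendsto_one_div_add_atTop_nhds_zero_nat (𝕜 := ℝ)).const_mul δ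
  rw [mul_zero] at h
  refine h.congr fun n => ?_
  unfold et
  ring

section
variable {b δ : ℝ} {f : ℝ → ℂ}

lemma gsq_A2 {η : ℝ} (hη : 0 < η) (hf : Fa b f) (v : ℝ) : gsq (A2 η f) v = gsq f v * ‖sg η (v * I)‖ ^ 4 := by
  unfold gsq
  rw [TT_A2 hη hf, norm_mul, norm_pow]
  ring

lemma gsq_A2_le {η : ℝ} (hη : 0 < η) (hf : Fa b f) (v : ℝ) : gsq (A2 η f) v ≤ gsq f v := by
  rw [gsq_A2 hη hf]
  have h1 : ‖sg η (v * I)‖ ^ 4 ≤ 1 := pow_le_one₀ (norm_nonneg _) (sg_norm hη v)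
  have := gsq_nonneg f v
  nlinarith

lemma lim_int (hδ : 0 < δ) (hf : Fa b f) {φ : ℝ → ℝ} (hφ : Continuous φ) (hi : Integrable (fun v => φ v * gsq f v)) :
    Tendsto (fun n => ∫ v : ℝ, φ v * gsq (A2 (et δ n) f) v) atTop (𝓝 (∫ v : ℝ, φ v * gsq f v)) := by
  refine tendsto_integral_of_dominated_convergence (fun v => ‖φ v * gsq f v‖) (fun n => ?_) hi.norm
    (fun n => Eventually.of_forall fun v => ?_) (Eventually.of_forall fun v => ?_)
  · exact (hφ.mul (gsq_cont (A2_Fa (et_pos hδ n) hf))).aestronglyMeasurable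
  · rw [norm_mul, norm_mul]
    refine mul_le_mul_of_nonneg_left ?_ (norm_nonneg _)
    rw [Real.norm_of_nonneg (gsq_nonneg _ v), Real.norm_of_nonneg (gsq_nonneg _ v)]
    exact gsq_A2_le (et_pos hδ n) hf v
  · refine Tendsto.const_mul _ ?_
    have h1 := sg_tendsto ((v : ℂ) * I) (et_pos hδ) (et_tendsto δ)
    have h2 := ((h1.norm).pow 4).const_mul (gsq f v)
    rw [norm_one, one_pow, mul_one] at h2
    refine h2.congr fun n => ?_
    rw [gsq_A2 (et_pos hδ n) hf]

lemma lim_N2 (hδ : 0 < δ) (hf : Fa b f) : Tendsto (fun n => N2 (A2 (et δ n) f)) atTop (𝓝 (N2 f)) := by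
  have h1 := lim_int (φ := fun _ => 1) hδ hf continuous_const (by simpa using gsq_int hf)
  simp only [one_mul] at h1
  have h2 : ∀ g : ℝ → ℂ, ∀ c : ℝ, Fa c g → ∫ v : ℝ, gsq g v = 2 * Real.pi * N2 g := fun g c hg => plancherel hg
  rw [h2 f b hf] at h1
  have h3 : ∀ n, ∫ v : ℝ, gsq (A2 (et δ n) f) v = 2 * Real.pi * N2 (A2 (et δ n) f) := fun n =>
    h2 _ _ (A2_Fa (et_pos hδ n) hf)
  simp_rw [h3] at h1
  have h4 := h1.const_mul (2 * Real.pi)⁻¹
  have hpi : (2 * Real.pi)⁻¹ * (2 * Real.pi) = 1 := inv_mul_cancel₀ (by positivity)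
  simpa only [← mul_assoc, hpi, one_mul] using h4

lemma lim_CC (hδ : 0 < δ) (hf : Fa b f) (l : ℝ) :
    Tendsto (fun n => (CC (A2 (et δ n) f) l).re) atTop (𝓝 (CC f l).re) := by
  have h1 := lim_int (φ := fun v => Real.cos (v * l)) hδ hf (by fun_prop) (cos_int hf l)
  rw [← CC_re hf] at h1
  have h3 : ∀ n, ∫ v : ℝ, Real.cos (v * l) * gsq (A2 (et δ n) f) v = 2 * Real.pi * (CC (A2 (et δ n) f) l).re := fun n =>
    (CC_re (A2_Fa (et_pos hδ n) hf) l).symm
  simp_rw [h3] at h1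
  have h4 := h1.const_mul (2 * Real.pi)⁻¹
  have hpi : (2 * Real.pi)⁻¹ * (2 * Real.pi) = 1 := inv_mul_cancel₀ (by positivity)
  simpa only [← mul_assoc, hpi, one_mul] using h4

lemma lim_TT (hδ : 0 < δ) (hf : Fa b f) (w : ℂ) : Tendsto (fun n => TT (A2 (et δ n) f) w) atTop (𝓝 (TT f w)) := by
  have h1 := ((sg_tendsto w (et_pos hδ) (et_tendsto δ)).pow 2).const_mul (TT f w)
  rw [one_pow, mul_one] at h1
  refine h1.congr fun n => ?_
  rw [TT_A2 (et_pos hδ n) hf]

lemma lim_PhiT (hδ : 0 < δ) (hf : Fa b f) (hL : Integrable (fun v : ℝ => Lg v * gsq f v)) (N : ℕ) :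
    Tendsto (fun n => PhiT N (A2 (et δ n) f)) atTop (𝓝 (PhiT N f)) := by
  unfold PhiT
  refine (Tendsto.add ?_ ?_).sub ?_
  · refine Tendsto.const_mul _ ?_
    exact (Complex.continuous_re.tendsto _).comp ((lim_TT hδ hf _).mul
      ((Complex.continuous_conj.tendsto _).comp (lim_TT hδ hf _)))
  · refine Tendsto.const_mul _ ?_
    refine lim_int hδ hf (dg_cont.sub continuous_const) ?_
    have := (dg_int hf hL).sub ((gsq_int hf).const_mul (Real.log Real.pi))
    refine this.congr (Eventually.of_forall fun v => ?_)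
    show dg v * gsq f v - Real.log Real.pi * gsq f v = (dg v - Real.log Real.pi) * gsq f v
    ring
  · refine Tendsto.const_mul _ ?_
    exact tendsto_finsetSum _ fun n _ => (lim_CC hδ hf _).const_mul _

end

/-- the inequality in the form domain -/
theorem form_ineq {a₀ a ε : ℝ} {N : ℕ} (ha0 : 0 < a₀) (ha : a₀ < a) (hI : Ineq a N ε) {f : ℝ → ℂ} (hf : Fa a₀ f)
    (hL : Integrable (fun v : ℝ => Lg v * gsq f v)) : ε * N2 f ≤ PhiT N f := by
  set δ : ℝ := (a - a₀) / 4 with hδ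
  have hδ0 : 0 < δ := by rw [hδ]; linarith
  refine le_of_tendsto_of_tendsto' ((lim_N2 hδ0 hf).const_mul ε) (lim_PhiT hδ0 hf hL N) fun n => ?_
  have hη := et_pos hδ0 n
  have hle := et_le hδ0 n
  set η := et δ n
  have hF : Fa (a₀ + 2 * η) (A2 η f) := A2_Fa hη hf
  have hF' : Fa a (A2 η f) := hF.mono (by linarith)
  have hv : ∀ x, a ≤ |x| → A2 η f x = 0 := fun x hx => hF.2 x (by linarith)
  obtain ⟨K, hK⟩ := A2_lip hη hf
  have hLF : Integrable (fun v : ℝ => Lg v * gsq (A2 η f) v) := by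
    refine Integrable.mono' hL (Pool.Agent.Y23.G.Lg_cont.mul (gsq_cont hF)).aestronglyMeasurable
      (Eventually.of_forall fun v => ?_)
    have h0 : 0 ≤ Lg v := by linarith [one_le_Lg v]
    rw [norm_mul, Real.norm_of_nonneg h0, Real.norm_of_nonneg (gsq_nonneg _ v)]
    exact mul_le_mul_of_nonneg_left (gsq_A2_le hη hf v) h0
  have h1 := hI (rf (A2 η f)) ⟨K, LipschitzWith.of_dist_le_mul fun x y => by
    refine le_trans ?_ (hK.dist_le_mul x y)
    rw [Real.dist_eq, dist_eq_norm]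
    unfold rf
    rw [← Complex.sub_re]
    exact Complex.abs_re_le_norm _⟩ (fun x hx => by unfold rf; rw [hv x hx]; rfl)
  have h2 := hI (mf (A2 η f)) ⟨K, LipschitzWith.of_dist_le_mul fun x y => by
    refine le_trans ?_ (hK.dist_le_mul x y)
    rw [Real.dist_eq, dist_eq_norm]
    unfold mf
    rw [← Complex.sub_im]
    exact Complex.abs_im_le_norm _⟩ (fun x hx => by unfold mf; rw [hv x hx]; rfl)
  have h3 := PhiR_le (ha0.trans ha) N hF' (dg_int hF hLF)
  rw [N2_split hF']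
  linarith

lemma CC_zero' {a : ℝ} {f : ℝ → ℂ} (hf : Fa a f) {l : ℝ} (hl : 2 * a ≤ l) : CC f l = 0 := by
  unfold CC
  have : ∀ᵐ x : ℝ, f (x + l) * conj (f x) = 0 := by
    have h0 : ∀ᵐ x : ℝ, x ≠ -a := by
      rw [ae_iff]
      simp
    filter_upwards [h0] with x hx0
    by_cases hx : a < |x|
    · rw [hf.2 x hx, map_zero, mul_zero]
    · rw [not_lt, abs_le] at hx
      have hx1 : -a < x := lt_of_le_of_ne hx.1 (Ne.symm hx0)
      rw [hf.2 (x + l) (by
        refine lt_of_lt_of_le ?_ (le_abs_self _)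
        linarith [hx1]), zero_mul]
  rw [integral_congr_ae this, integral_zero]

lemma aL_eq {n : ℕ} (hn : 1 ≤ n) : aL (L := zL) n = ((ArithmeticFunction.vonMangoldt n / Real.sqrt n : ℝ) : ℂ) := by
  have e3 : aL (L := zL) n = ((ArithmeticFunction.vonMangoldt n : ℝ) : ℂ) *
      ((if n = 0 then 0 else 1) * TH839.NA.pw (-(1 / 2)) n) := rfl
  rw [e3, if_neg (by omega), one_mul]
  unfold TH839.NA.pw
  rw [← Complex.ofReal_mul]
  congr 1
  rw [Real.rpow_neg (Nat.cast_nonneg _), ← Real.sqrt_eq_rpow, div_eq_mul_inv]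

/-- the two sums over the prime powers agree -/
lemma QQ_eq {a : ℝ} (ha : 0 < a) {N : ℕ} (hN : Real.exp (2 * a) ≤ N + 1) {f : ℝ → ℂ} (hf : Hd a f) :
    QQ (D := Pool.Agent.Y23.G.zd (L := zL)) f = PhiT N f := by
  rw [weil (L := zL) ha hf]
  have e1 : ((zL).r : ℝ) = 1 := by
    show ((1 : ℕ) : ℝ) = 1
    norm_num
  have e2 : (∫ v : ℝ, GD (L := zL) v * ‖TT f (v * I)‖ ^ 2) = ∫ v : ℝ, (dg v - Real.log Real.pi) * gsq f v := by
    refine integral_congr_ae (Eventually.of_forall fun v => ?_)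
    simp only
    rw [dg_eq]
    rfl
  have e3 : (∑ n ∈ Finset.Icc 1 ⌊Real.exp (2 * a)⌋₊, aL (L := zL) n * ∫ x : ℝ, f (x + Real.log n) * conj (f x)).re =
      ∑ n ∈ Finset.Icc 1 N, ArithmeticFunction.vonMangoldt n / Real.sqrt n * (CC f (Real.log n)).re := by
    rw [Complex.re_sum]
    have e4 : ∑ n ∈ Finset.Icc 1 ⌊Real.exp (2 * a)⌋₊, (aL (L := zL) n * ∫ x : ℝ, f (x + Real.log n) * conj (f x)).re =
        ∑ n ∈ Finset.Icc 1 ⌊Real.exp (2 * a)⌋₊, ArithmeticFunction.vonMangoldt n / Real.sqrt n * (CC f (Real.log n)).re := by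
      refine Finset.sum_congr rfl fun n hn => ?_
      rw [aL_eq (Finset.mem_Icc.1 hn).1, Complex.re_ofReal_mul]
      rfl
    rw [e4]
    set M := ⌊Real.exp (2 * a)⌋₊ with hM
    have hz : ∀ n : ℕ, 1 ≤ n → Real.exp (2 * a) ≤ n → (CC f (Real.log n)).re = 0 := by
      intro n hn h
      rw [CC_zero' hf.1, Complex.zero_re]
      rw [Real.le_log_iff_exp_le (by exact_mod_cast hn)]
      exact h
    rcases le_total M N with h | h
    · refine Finset.sum_subset (Finset.Icc_subset_Icc_right h) fun n hn hn' => ?_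
      rw [Finset.mem_Icc] at hn hn'
      have h5 : M < n := by
        by_contra hcon
        exact hn' ⟨hn.1, not_lt.1 hcon⟩
      rw [hz n hn.1 (Nat.lt_of_floor_lt h5).le, mul_zero]
    · refine (Finset.sum_subset (Finset.Icc_subset_Icc_right h) fun n hn hn' => ?_).symm
      rw [Finset.mem_Icc] at hn hn'
      have h5 : N < n := by
        by_contra hcon
        exact hn' ⟨hn.1, not_lt.1 hcon⟩
      have h6 : ((N : ℝ) + 1) ≤ n := by exact_mod_cast h5
      rw [hz n hn.1 (hN.trans h6), mul_zero]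
  rw [e1, e2, e3]
  unfold PhiT
  ring

end Pool.Agent.Zk2.WP
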