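import Pool.Agent.Y23.G.An6
import Pool.Agent.Y23.G.Fm
import Pool.Agent.Y23.Ze
import Pool.Agent.W355.UN.Inst
import Pool.Agent.Zk4.Ws

/-! # Weil's form of the zeta function: the link with the zeros -/

set_option autoImplicit false
set_option linter.unusedSectionVars false
set_option maxHeartbeats 2000000

open Complex Filter Topology Set MeasureTheory
open scoped ComplexConjugate

namespace Pool.Agent.Zk2.WP

open Pool.Agent.Y23 (TT Fa N2)
open Pool.Agent.Y23.G
open Pool.Agent.Zk4.W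

/-- the completed zeta function -/
noncomputable def XZ (s : ℂ) : ℂ := s * (s - 1) * completedRiemannZeta₀ s + 1

lemma raw_z : TH839.NA.RawT (1 / 2) 1 1 1 (fun _ => 0) (fun _ => 1) (fun n => if n = 0 then 0 else 1) XZ := by
  have h := W355.UN.zeta_raw
  have hc := h.conv
  refine ⟨le_rfl, le_rfl, le_rfl, by norm_num, by norm_num, fun j => by norm_num, h.entire, h.order, h.fe, rfl,
    fun n => ?_, fun n hn => ?_, ?_⟩
  · by_cases hn : n = 0
    · rw [if_pos hn, norm_zero]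
      positivity
    · rw [if_neg hn, norm_one]
      have h1 : (1 : ℝ) ≤ (n : ℝ) ^ (1 / 2 : ℝ) := by
        have : (1 : ℝ) ≤ n := by exact_mod_cast Nat.one_le_iff_ne_zero.2 hn
        exact Real.one_le_rpow this (by norm_num)
      simpa using h1
  · rw [hc n hn]
    refine Finset.sum_congr rfl fun d hd => ?_
    rw [if_neg (Nat.pos_of_mem_divisors hd).ne']
  · obtain ⟨σ, hσ⟩ := h.eq
    refine ⟨σ, fun s hs => ?_⟩
    have h1 := hσ s hs
    have h2 : (∏ j : Fin ([0] : List ℂ).length, Gammaℝ (s + ([0] : List ℂ).get j)) =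
        ∏ j : Fin 1, Gammaℝ (s + (fun _ : Fin 1 => (0 : ℂ)) j) := by
      rw [W355.UN.prod_get [0] (fun a : ℂ => Gammaℝ (s + a))]
      simp
    rw [h2] at h1
    exact h1

/-- the data of the zeta function -/
@[reducible] noncomputable def zL : LFun where
  m := 1
  r := 1
  N := 1
  a := fun _ => 0
  b := fun _ => 1
  c := fun n => if n = 0 then 0 else 1
  X := XZ
  raw := raw_z
  str := fun _ => by norm_num

lemma GD_z (t : ℝ) : GD (L := zL) t = (logDeriv Gamma (1 / 4 + t / 2 * I)).re - Real.log Real.pi := by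
  unfold GD GA H353.E.gaD
  have e1 : (⟨1 / 2, t⟩ : ℂ) = 1 / 2 + t * I := by
    rw [H370.mk_eq]; push_cast; ring
  rw [e1, Complex.add_re, Complex.ofReal_re, Complex.re_sum, mul_add, Finset.mul_sum]
  have e2 : (zL).N = 1 := rfl
  have e0 : (zL).m = 1 := rfl
  rw [e2]
  show 2 * (Real.log 1 / 2) + ∑ i : Fin 1, _ = _
  rw [Fin.sum_univ_one, Real.log_one, zero_div, mul_zero, zero_add]
  have e3 : (1 / 2 + (t : ℂ) * I - -(zL).a 0) / 2 = 1 / 4 + t / 2 * I := by
    show (1 / 2 + (t : ℂ) * I - -0) / 2 = _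
    ring
  rw [e3, Complex.add_re, Complex.ofReal_re]
  have e5 : (logDeriv Gamma (1 / 4 + (t : ℂ) / 2 * I) / 2).re = (logDeriv Gamma (1 / 4 + (t : ℂ) / 2 * I)).re / 2 := by
    rw [show (2 : ℂ) = ((2 : ℝ) : ℂ) by norm_num, Complex.div_ofReal_re]
  rw [e5]
  ring

lemma XX_XZ (z : ℂ) : H24R2.JP.XX z = 4 * XZ (1 / 2 + z) := by
  unfold H24R2.JP.XX XZ
  ring

lemma zero_iff (s : ℂ) : s ∈ Zs ↔ s ∈ (zd (L := zL)).Zs := by
  show (riemannZeta s = 0 ∧ 0 < s.re ∧ s.re < 1) ↔ XZ s = 0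
  have h := Y23.isZ_iff s
  unfold Y23.IsZ at h
  rw [h, XX_XZ]
  have : (1 / 2 + (s - 1 / 2) : ℂ) = s := by ring
  rw [this]
  simp

lemma order_shift (f : ℂ → ℂ) (s : ℂ) :
    analyticOrderAt (fun z : ℂ => f (1 / 2 + z)) (s - 1 / 2) = analyticOrderAt f s := by
  have h1 : HasDerivAt (fun z : ℂ => 1 / 2 + z) 1 (s - 1 / 2) := (hasDerivAt_id _).const_add _
  have h3 : (1 / 2 + (s - 1 / 2) : ℂ) = s := by ring
  have h2 := analyticOrderAt_comp_of_deriv_ne_zero (f := f) (g := fun z : ℂ => 1 / 2 + z) (z₀ := s - 1 / 2) (by fun_prop)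
    (by rw [h1.deriv]; exact one_ne_zero)
  rw [h3] at h2
  exact h2

lemma mult_eq {s : ℂ} (hs : s ∈ Zs) : analyticOrderNatAt riemannZeta s = mu (D := zd (L := zL)) s := by
  have h1 : analyticOrderNatAt riemannZeta s = analyticOrderNatAt H24R2.JP.XX (s - 1 / 2) := Y23.mu_eq hs.2.1 hs.2.2
  show _ = analyticOrderNatAt XZ s
  rw [h1]
  unfold analyticOrderNatAt
  congr 1
  have e : H24R2.JP.XX = (fun _ : ℂ => (4 : ℂ)) * (fun z => XZ (1 / 2 + z)) := funext XX_XZ
  have hX : Differentiable ℂ XZ := Xd (L := zL)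
  have hX2 : Differentiable ℂ (fun z : ℂ => XZ (1 / 2 + z)) := hX.comp (by fun_prop)
  rw [e, analyticOrderAt_mul analyticAt_const (hX2.analyticAt _), order_shift,
    analyticAt_const.analyticOrderAt_eq_zero.2 (by norm_num), zero_add]

end Pool.Agent.Zk2.WP
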