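import Pool.Agent.Zk2.WP.Lim

/-! # The first part of the positivity of Weil's form -/

set_option autoImplicit false
set_option maxHeartbeats 2000000

open Complex Filter Topology Set MeasureTheory
open scoped ComplexConjugate

namespace Pool.Agent.Zk2.WP

open Pool.Agent.Y23 (TT Fa N2 plancherel N2_nonneg)
open Pool.Agent.Y23.G (gsq gsq_nonneg gsq_cont gsq_int CC four_one CC_zero Fa_shift Lg one_le_Lg Hd GD GD_cont GD_bd QQ QB
  QB_self summable_GG GG mu Zt TT_shift)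
open Pool.Agent.Zk4.W

/-- the identification of the zeros -/
noncomputable def eqZ : Zs ≃ Zt (D := Pool.Agent.Y23.G.zd (L := zL)) := Equiv.subtypeEquivRight zero_iff

lemma eqZ_coe (ρ : Zs) : ((eqZ ρ : Zt (D := Pool.Agent.Y23.G.zd (L := zL))) : ℂ) = (ρ : ℂ) := rfl

lemma Ml_shift (f : ℝ → ℂ) (c : ℝ) (w : ℂ) : Ml f w = cexp (w * c) * TT (fun x => f (x + c)) w := by
  rw [TT_shift (L := zL), ← mul_assoc, ← Complex.exp_add]
  have : w * (c : ℂ) + -(w * c) = 0 := by ring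
  rw [this, Complex.exp_zero, one_mul]
  rfl

lemma wterm_eq (f : ℝ → ℂ) (c : ℝ) (ρ : Zs) :
    wterm f ρ = (mu (D := Pool.Agent.Y23.G.zd (L := zL)) (eqZ ρ : ℂ) : ℂ) *
      GG (fun x => f (x + c)) (fun x => f (x + c)) ((eqZ ρ : ℂ) - 1 / 2) := by
  unfold wterm GG
  rw [mult_eq ρ.2, eqZ_coe, Ml_shift f c, Ml_shift f c (1 / 2 - conj (ρ : ℂ))]
  congr 1
  have e1 : -conj ((ρ : ℂ) - 1 / 2) = 1 / 2 - conj (ρ : ℂ) := by
    rw [map_sub, map_div₀, map_one, map_ofNat]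
    ring
  rw [e1, map_mul, ← Complex.exp_conj, map_mul, map_sub, Complex.conj_conj, Complex.conj_ofReal, map_div₀, map_one,
    map_ofNat]
  have e2 : cexp (((ρ : ℂ) - 1 / 2) * c) * cexp ((1 / 2 - (ρ : ℂ)) * c) = 1 := by
    rw [← Complex.exp_add]
    have : ((ρ : ℂ) - 1 / 2) * c + (1 / 2 - (ρ : ℂ)) * c = 0 := by ring
    rw [this, Complex.exp_zero]
  calc _ = (cexp (((ρ : ℂ) - 1 / 2) * c) * cexp ((1 / 2 - (ρ : ℂ)) * c)) *
      (TT (fun x => f (x + c)) ((ρ : ℂ) - 1 / 2) * conj (TT (fun x => f (x + c)) (1 / 2 - conj (ρ : ℂ)))) := by ring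
    _ = _ := by rw [e2, one_mul]

/-- PART P1 -/
theorem sp1 : SP1 := by
  intro a₀ a ε N ha0 ha hN hI f c hf hsupp hL
  set g : ℝ → ℂ := fun x => f (x + c) with hg
  have hgFa : Fa a₀ g := by
    refine ⟨hf.comp_measurePreserving (measurePreserving_add_right volume c), fun x hx => ?_⟩
    refine hsupp _ fun h => ?_
    have h1 : |x| ≤ a₀ := abs_le.2 ⟨by linarith [h.1], by linarith [h.2]⟩
    linarith
  have hLg : Integrable (fun v : ℝ => Lg v * ‖TT g (v * I)‖ ^ 2) := by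
    refine hL.congr (Eventually.of_forall fun v => ?_)
    show Real.log (3 + |v|) * ‖Ml f (v * I)‖ ^ 2 = Lg v * ‖TT g (v * I)‖ ^ 2
    rw [Ml_shift f c, norm_mul]
    have : (v * I : ℂ) * c = ((v * c : ℝ) : ℂ) * I := by push_cast; ring
    rw [this, Complex.norm_exp_ofReal_mul_I, one_mul]
    rfl
  have hHd : Hd a₀ g := ⟨hgFa, hLg⟩
  have hdom : Pool.Agent.Y23.G.Dom (D := Pool.Agent.Y23.G.zd (L := zL)) g :=
    Pool.Agent.Y23.G.Hd.dom (DZ := Pool.Agent.Y23.G.zd (L := zL)) (EC := Pool.Agent.Y23.G.zc (L := zL)) ha0 hHd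
  have hsum := summable_GG (DZ := Pool.Agent.Y23.G.zd (L := zL)) hdom hdom
  have hQB := QB_self (DZ := Pool.Agent.Y23.G.zd (L := zL)) hdom
  have hw : wterm f = (fun ρ : Zt (D := Pool.Agent.Y23.G.zd (L := zL)) =>
      (mu (D := Pool.Agent.Y23.G.zd (L := zL)) (ρ : ℂ) : ℂ) * GG g g ((ρ : ℂ) - 1 / 2)) ∘ eqZ := by
    funext ρ
    exact wterm_eq f c ρ
  have h1 : Summable (wterm f) := by
    rw [hw]
    exact eqZ.summable_iff.2 hsum
  have h2 : ∑' ρ, wterm f ρ = (QQ (D := Pool.Agent.Y23.G.zd (L := zL)) g : ℂ) := by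
    rw [hw, ← hQB]
    exact eqZ.tsum_eq (fun ρ : Zt (D := Pool.Agent.Y23.G.zd (L := zL)) =>
      (mu (D := Pool.Agent.Y23.G.zd (L := zL)) (ρ : ℂ) : ℂ) * GG g g ((ρ : ℂ) - 1 / 2))
  refine ⟨h1, ?_, ?_⟩
  · rw [h2, Complex.ofReal_im]
  · rw [h2, Complex.ofReal_re, QQ_eq ha0 hN hHd]
    have h3 := form_ineq ha0 ha hI hgFa hLg
    have h4 : N2 g = ∫ x, ‖f x‖ ^ 2 := by
      unfold N2
      exact integral_add_right_eq_self (fun x => ‖f x‖ ^ 2) c
    rw [← h4]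
    exact h3

end Pool.Agent.Zk2.WP

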